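import Pool.Agent.Helper49.OP.Base

/-!
# OR, block TA: moments from above without a condition on the coefficients, and the tails of a linear form

After `Helper49.OP.MomEven`.
-/

set_option autoImplicit false
open MeasureTheory Set Filter Topology
open Pool.Agent.Helper49.TX (ak)
open Pool.Agent.Helper49.NRS (Inj inj_sum sum_ak_ge re_pow four_choose)
open Pool.Agent.Helper62.OP (DC)
open Pool.Agent.Helper49.OP

namespace Pool.Agent.Helper28.OR

/-- even moments from above -/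
theorem mom_up : ∃ T₀ : ℝ, 1 ≤ T₀ ∧ ∀ T Y : ℝ, T₀ ≤ T → 1 ≤ Y → ∀ (Q : Finset ℕ) (w : ℕ → ℂ) (m : ℕ),
    (∀ p ∈ Q, p.Prime ∧ (p : ℝ) ≤ Y) → Y ^ (m + 1) ≤ T ^ (1 / 16 : ℝ) →
    ∫ t in Icc T (2 * T), (DC Q w t).re ^ (2 * m) ≤
      2 * T * ((2 * m).factorial / (2 ^ m * m.factorial) : ℝ) * ((∑ p ∈ Q, ‖w p‖ ^ 2 / p) / 2) ^ m := by
  have ev1 : ∀ᶠ T : ℝ in atTop, 8 ≤ T ^ (11 / 16 : ℝ) := (tendsto_rpow_atTop (by norm_num)).eventually_ge_atTop _
  obtain ⟨T0, hT0⟩ := eventually_atTop.mp (ev1.and (eventually_ge_atTop 1))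
  refine ⟨max T0 1, le_max_right _ _, fun T L hT1 hL Q w m hQ hLm1 => ?_⟩
  have hT : T0 ≤ T := (le_max_left _ _).trans hT1
  obtain ⟨f1, f2⟩ := hT0 T hT
  have hTp : 0 < T := by linarith
  have hLm : L ^ m ≤ T ^ (1 / 16 : ℝ) := (pow_le_pow_right₀ hL (by omega)).trans hLm1
  have hQ' : ∀ p ∈ Q, p.Prime := fun p hp => (hQ p hp).1
  obtain ⟨r, hr⟩ : ∃ r : ℕ → ℝ, r = fun p => ‖w p‖ := ⟨_, rfl⟩
  have hrp : ∀ p, ‖w p‖ = r p := fun p => by rw [hr]
  simp only [hrp]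
  obtain ⟨V, hVd⟩ : ∃ V : ℝ, V = ∑ p ∈ Q, r p ^ 2 / (p:ℝ) := ⟨_, rfl⟩
  have hV : 0 ≤ V := by rw [hVd]; exact Finset.sum_nonneg fun p _ => by positivity
  -- a prime in `Q`
  rcases Q.eq_empty_or_nonempty with hne | hne
  · subst hne
    rw [Finset.sum_empty]
    have h1 : ∀ t, (DC ∅ w t).re = 0 := fun t => by unfold DC; simp
    simp only [h1]
    rcases Nat.eq_zero_or_pos m with h | h
    · subst h
      simp
      exact hTp.le
    · rw [zero_pow (by omega), integral_zero, zero_div, zero_pow (by omega), mul_zero]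
  rw [← hVd]
  obtain ⟨p₀, hp₀⟩ := hne
  have hL2 : 2 ≤ L := by
    have h1 : (2:ℝ) ≤ p₀ := by exact_mod_cast (hQ' _ hp₀).two_le
    linarith [(hQ _ hp₀).2]
  -- the length
  obtain ⟨N, hN⟩ : ∃ N : ℕ, N = ⌊L ^ (2 * m)⌋₊ := ⟨_, rfl⟩
  have hN1 : 1 ≤ N := by
    rw [hN]
    exact Nat.one_le_floor_iff _ |>.2 (one_le_pow₀ hL)
  have hNL : (N : ℝ) ≤ L ^ (2 * m) := by
    rw [hN]
    exact Nat.floor_le (by positivity)
  have hfN : ∀ j : ℕ, j ≤ 2 * m → ∀ f ∈ Fintype.piFinset (fun _ : Fin j => Q), ∏ i, f i ≤ N := by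
    intro j hj f hf
    rw [Fintype.mem_piFinset] at hf
    rw [hN]
    apply Nat.le_floor
    push_cast
    calc ∏ i, (f i : ℝ) ≤ ∏ _i : Fin j, L := Finset.prod_le_prod (fun i _ => Nat.cast_nonneg _) fun i _ => (hQ _ (hf i)).2
      _ = L ^ j := by rw [Finset.prod_const, Finset.card_univ, Fintype.card_fin]
      _ ≤ L ^ (2 * m) := pow_le_pow_right₀ hL hj
  have hPo : ∀ j : ℕ, j ≤ 2 * m → ∀ t, DC Q w t ^ j = PC N (aC Q w j) t := fun j hj t => DC_pow Q w j N (hfN j hj) t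
  -- the sum of the absolute values
  obtain ⟨S, hS⟩ : ∃ S : ℝ, S = ∑ p ∈ Q, ‖w p‖ / √(p:ℝ) := ⟨_, rfl⟩
  have hS0 : 0 ≤ S := by rw [hS]; exact Finset.sum_nonneg fun p _ => by positivity
  have hcardQ : (Q.card : ℝ) ≤ L := by
    have h1 : Q ⊆ Finset.Icc 1 ⌊L⌋₊ := by
      intro p hp
      rw [Finset.mem_Icc]
      exact ⟨(hQ' p hp).one_lt.le, Nat.le_floor (hQ p hp).2⟩
    have h2 := Finset.card_le_card h1
    rw [Nat.card_Icc, Nat.add_sub_cancel] at h2
    calc (Q.card : ℝ) ≤ ⌊L⌋₊ := by exact_mod_cast h2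
      _ ≤ L := Nat.floor_le (by linarith)
  have hS2 : S ^ 2 ≤ L * V := by
    have h1 : S ^ 2 ≤ Q.card * ∑ p ∈ Q, (‖w p‖ / √(p:ℝ)) ^ 2 := by
      rw [hS]
      exact sq_sum_le_card_mul_sum_sq
    have h2 : ∑ p ∈ Q, (‖w p‖ / √(p:ℝ)) ^ 2 = V := by
      rw [hVd]
      refine Finset.sum_congr rfl fun p _ => ?_
      rw [div_pow, Real.sq_sqrt (Nat.cast_nonneg _), hrp]
    rw [h2] at h1
    exact h1.trans (mul_le_mul_of_nonneg_right hcardQ hV)
  obtain ⟨R, hR⟩ : ∃ R : ℝ, R = T ^ (1 / 16 : ℝ) := ⟨_, rfl⟩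
  have hR0 : 0 < R := by rw [hR]; positivity
  have hLm0 : 0 ≤ L ^ m := by positivity
  have herr : 2 * (N:ℝ) * S ^ (2 * m) ≤ 2 * R ^ 3 * V ^ m := by
    have h1 : S ^ (2 * m) ≤ (L * V) ^ m := by
      rw [pow_mul]
      exact pow_le_pow_left₀ (sq_nonneg _) hS2 m
    have h2 : (N:ℝ) ≤ (L ^ m) ^ 2 := by
      refine hNL.trans (le_of_eq ?_)
      rw [← pow_mul]
      ring_nf
    rw [hR]
    calc 2 * (N:ℝ) * S ^ (2 * m) ≤ 2 * (L ^ m) ^ 2 * (L * V) ^ m := by gcongr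
      _ = 2 * (L ^ m) ^ 3 * V ^ m := by rw [mul_pow]; ring
      _ ≤ 2 * (T ^ (1 / 16 : ℝ)) ^ 3 * V ^ m := by gcongr
  -- one term
  have hterm : ∀ j ∈ Finset.range (2 * m + 1),
      |(∫ t in T..(2 * T), (DC Q w t ^ j * (starRingEnd ℂ) (DC Q w t ^ (2 * m - j))).re) -
        T * (∑ n ∈ Finset.range (N + 1), aC Q w j n * (starRingEnd ℂ) (aC Q w (2 * m - j) n) / n).re| ≤
        2 * N * S ^ (2 * m) := by
    intro j hj
    rw [Finset.mem_range] at hj
    have h1 := mean_mulC hN1 (aC_zero hQ' w j) (aC_zero hQ' w (2 * m - j)) T (2 * T)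
    rw [show 2 * T - T = T by ring] at h1
    simp_rw [hPo j (by omega), hPo (2 * m - j) (by omega)]
    have hci : IntervalIntegrable (fun t => PC N (aC Q w j) t * (starRingEnd ℂ) (PC N (aC Q w (2 * m - j)) t))
        volume T (2 * T) :=
      ((PC_cont _ _).mul (Complex.continuous_conj.comp (PC_cont _ _))).intervalIntegrable _ _
    have h6 : (∫ t in T..(2 * T), (PC N (aC Q w j) t * (starRingEnd ℂ) (PC N (aC Q w (2 * m - j)) t)).re) =
        (∫ t in T..(2 * T), PC N (aC Q w j) t * (starRingEnd ℂ) (PC N (aC Q w (2 * m - j)) t)).re :=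
      Complex.reCLM.intervalIntegral_comp_comm hci
    have h7 : T * (∑ n ∈ Finset.range (N + 1), aC Q w j n * (starRingEnd ℂ) (aC Q w (2 * m - j) n) / n).re =
        ((T : ℂ) * ∑ n ∈ Finset.range (N + 1), aC Q w j n * (starRingEnd ℂ) (aC Q w (2 * m - j) n) / n).re := by
      rw [Complex.re_ofReal_mul]
    rw [h6, h7, ← Complex.sub_re]
    refine (Complex.abs_re_le_norm _).trans (h1.trans ?_)
    have h2 := sum_norm_aC hQ' w j N (hfN j (by omega))
    have h3 := sum_norm_aC hQ' w (2 * m - j) N (hfN _ (by omega))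
    rw [← hS] at h2 h3
    have h4 : 0 ≤ ∑ n ∈ Finset.range (N + 1), ‖aC Q w (2 * m - j) n‖ / √(n:ℝ) :=
      Finset.sum_nonneg fun n _ => by positivity
    have h5 : S ^ (2 * m) = S ^ j * S ^ (2 * m - j) := by
      rw [← pow_add]
      congr 1
      omega
    rw [h5]
    apply mul_le_mul_of_nonneg_left _ (by positivity)
    exact mul_le_mul h2 h3 h4 (by positivity)
  -- the diagonal
  obtain ⟨D, hD⟩ : ∃ D : ℝ, D = ∑ n ∈ Finset.range (N + 1), ak Q r m n * ak Q r m n / n := ⟨_, rfl⟩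
  have hdiag : ∀ j ∈ Finset.range (2 * m + 1), ((2 * m).choose j : ℝ) *
      (T * (∑ n ∈ Finset.range (N + 1), aC Q w j n * (starRingEnd ℂ) (aC Q w (2 * m - j) n) / n).re) =
        if j = m then ((2 * m).choose m : ℝ) * (T * D) else 0 := by
    intro j hj
    rw [Finset.mem_range] at hj
    split_ifs with h
    · subst h
      rw [hD, show 2 * j - j = j by omega, Complex.re_sum]
      congr 2
      refine Finset.sum_congr rfl fun n _ => ?_
      rw [Complex.mul_conj, Complex.normSq_eq_norm_sq, norm_aC hQ', ← hr, ← Complex.ofReal_natCast,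
        ← Complex.ofReal_div, Complex.ofReal_re, pow_two]
    · have h1 : ∑ n ∈ Finset.range (N + 1), aC Q w j n * (starRingEnd ℂ) (aC Q w (2 * m - j) n) / (n:ℂ) = 0 := by
        apply Finset.sum_eq_zero
        intro n _
        rw [aC_disj hQ' w (by omega) n, zero_div]
      rw [h1, Complex.zero_re, mul_zero, mul_zero]
  have hmain : |(∫ t in Icc T (2 * T), (DC Q w t).re ^ (2 * m)) - (1 / 4) ^ m * (((2 * m).choose m : ℝ) * (T * D))| ≤
      2 * R ^ 3 * V ^ m := by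
    have h1 : ∫ t in Icc T (2 * T), (DC Q w t).re ^ (2 * m) = (1 / 4) ^ m * ∑ j ∈ Finset.range (2 * m + 1),
        ((2 * m).choose j : ℝ) * ∫ t in T..(2 * T), (DC Q w t ^ j * (starRingEnd ℂ) (DC Q w t ^ (2 * m - j))).re := by
      rw [integral_Icc_eq_integral_Ioc, ← intervalIntegral.integral_of_le (by linarith)]
      simp_rw [re_pow]
      rw [intervalIntegral.integral_const_mul, intervalIntegral.integral_finsetSum]
      · congr 1
        refine Finset.sum_congr rfl fun j _ => ?_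
        rw [intervalIntegral.integral_const_mul]
      · intro j _
        apply Continuous.intervalIntegrable
        have hc := DC_cont Q w
        exact continuous_const.mul (Complex.continuous_re.comp
          ((hc.pow _).mul (Complex.continuous_conj.comp (hc.pow _))))
    have h2 : (1 / 4 : ℝ) ^ m * (((2 * m).choose m : ℝ) * (T * D)) = (1 / 4) ^ m * ∑ j ∈ Finset.range (2 * m + 1),
        ((2 * m).choose j : ℝ) *
          (T * (∑ n ∈ Finset.range (N + 1), aC Q w j n * (starRingEnd ℂ) (aC Q w (2 * m - j) n) / n).re) := by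
      rw [Finset.sum_congr rfl hdiag, Finset.sum_ite_eq', if_pos (Finset.mem_range.2 (by omega))]
    rw [h1, h2, ← mul_sub, ← Finset.sum_sub_distrib, abs_mul, abs_of_nonneg (by positivity : (0:ℝ) ≤ (1 / 4) ^ m)]
    have h3 : |∑ j ∈ Finset.range (2 * m + 1), (((2 * m).choose j : ℝ) *
        (∫ t in T..(2 * T), (DC Q w t ^ j * (starRingEnd ℂ) (DC Q w t ^ (2 * m - j))).re) -
        ((2 * m).choose j : ℝ) *
          (T * (∑ n ∈ Finset.range (N + 1), aC Q w j n * (starRingEnd ℂ) (aC Q w (2 * m - j) n) / n).re))| ≤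
        4 ^ m * (2 * N * S ^ (2 * m)) := by
      refine (Finset.abs_sum_le_sum_abs _ _).trans ?_
      have h4 : ∀ j ∈ Finset.range (2 * m + 1), |(((2 * m).choose j : ℝ) *
          (∫ t in T..(2 * T), (DC Q w t ^ j * (starRingEnd ℂ) (DC Q w t ^ (2 * m - j))).re) -
          ((2 * m).choose j : ℝ) *
            (T * (∑ n ∈ Finset.range (N + 1), aC Q w j n * (starRingEnd ℂ) (aC Q w (2 * m - j) n) / n).re))| ≤
          ((2 * m).choose j : ℝ) * (2 * N * S ^ (2 * m)) := by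
        intro j hj
        rw [← mul_sub, abs_mul, abs_of_nonneg (Nat.cast_nonneg _)]
        exact mul_le_mul_of_nonneg_left (hterm j hj) (Nat.cast_nonneg _)
      refine (Finset.sum_le_sum h4).trans (le_of_eq ?_)
      rw [← Finset.sum_mul]
      congr 1
      have h5 := Nat.sum_range_choose (2 * m)
      have h6 : (2:ℝ) ^ (2 * m) = 4 ^ m := by rw [pow_mul]; norm_num
      rw [← h6]
      exact_mod_cast h5
    refine (mul_le_mul_of_nonneg_left h3 (by positivity)).trans ?_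
    refine le_trans (le_of_eq ?_) herr
    rw [← mul_assoc, ← mul_pow]
    norm_num
  -- size of the diagonal
  have hDup : D ≤ m.factorial * V ^ m := by
    have h1 := Pool.Agent.Helper49.TX.sum_ak Q hQ' r m N (hfN m (by omega))
    rw [← hVd] at h1
    rw [hD]
    simpa only [pow_two] using h1
  -- the error is small
  obtain ⟨G, hG⟩ : ∃ G : ℝ, G = ((2 * m).factorial / (2 ^ m * m.factorial) : ℝ) * (V / 2) ^ m := ⟨_, rfl⟩
  have hG2 : G = (1 / 4) ^ m * ((2 * m).choose m : ℝ) * (m.factorial * V ^ m) := by rw [hG, four_choose]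
  have hch : (1:ℝ) ≤ ((2 * m).choose m : ℝ) := by
    exact_mod_cast Nat.choose_pos (show m ≤ 2 * m by omega)
  have hfac : (1:ℝ) ≤ (m.factorial : ℝ) := by exact_mod_cast m.factorial_pos
  have hVm : 0 ≤ V ^ m := by positivity
  have hGlo : (1 / 4) ^ m * V ^ m ≤ G := by
    rw [hG2]
    calc (1 / 4 : ℝ) ^ m * V ^ m = (1 / 4) ^ m * 1 * (1 * V ^ m) := by ring
      _ ≤ _ := by gcongr
  have hsmall : 2 * R ^ 3 * V ^ m ≤ T / 4 * G := by
    have h1 : (4:ℝ) ^ m ≤ R ^ 2 := by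
      rw [hR]
      calc (4:ℝ) ^ m = (2 ^ m) ^ 2 := by rw [← pow_mul, mul_comm m 2, pow_mul]; norm_num
        _ ≤ (L ^ m) ^ 2 := by gcongr
        _ ≤ _ := by gcongr
    have h2 : 8 * R ^ 5 ≤ T := by
      have e1 : R ^ 5 = T ^ (5 / 16 : ℝ) := by
        rw [hR, ← Real.rpow_natCast, ← Real.rpow_mul hTp.le]
        norm_num
      rw [e1]
      calc 8 * T ^ (5 / 16 : ℝ) ≤ T ^ (11 / 16 : ℝ) * T ^ (5 / 16 : ℝ) := by gcongr
        _ = T := by rw [← Real.rpow_add hTp]; norm_num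
    have h3 : (1:ℝ) = (4:ℝ) ^ m * (1 / 4) ^ m := by rw [← mul_pow]; norm_num
    calc 2 * R ^ 3 * V ^ m = 2 * R ^ 3 * (4 ^ m * ((1 / 4) ^ m * V ^ m)) := by rw [← mul_assoc (4 ^ m), ← h3, one_mul]
      _ ≤ 2 * R ^ 3 * (R ^ 2 * G) := by gcongr
      _ = (8 * R ^ 5) / 4 * G := by ring
      _ ≤ T / 4 * G := by
        apply mul_le_mul_of_nonneg_right _ (le_trans (by positivity) hGlo)
        linarith
  have hup : (1 / 4) ^ m * (((2 * m).choose m : ℝ) * (T * D)) ≤ T * G := by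
    rw [hG2]
    calc (1 / 4 : ℝ) ^ m * (((2 * m).choose m : ℝ) * (T * D)) ≤
        (1 / 4) ^ m * (((2 * m).choose m : ℝ) * (T * (m.factorial * V ^ m))) := by gcongr
      _ = _ := by ring
  rw [abs_le] at hmain
  have hTG : 0 ≤ T * G := mul_nonneg hTp.le (le_trans (by positivity) hGlo)
  calc ∫ t in Icc T (2 * T), (DC Q w t).re ^ (2 * m) ≤ 2 * (T * G) := by linarith [hmain.2]
    _ = _ := by rw [hG]; ring

/-- `m! ≤ e m (m/e)^m` -/
lemma fac_le (m : ℕ) (hm : 1 ≤ m) : (m.factorial : ℝ) ≤ Real.exp 1 * m * (m / Real.exp 1) ^ m := by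
  induction m, hm using Nat.le_induction with
  | base =>
    simp
  | succ m hm ih =>
    have hm0 : (0 : ℝ) < m := by exact_mod_cast hm
    have he : 0 < Real.exp 1 := Real.exp_pos 1
    have h1 : Real.exp 1 ≤ (1 + 1 / (m : ℝ)) ^ (m + 1) := by
      have h2 : 1 / ((m : ℝ) + 1) ≤ Real.log (1 + 1 / m) := by
        have h3 := Real.one_sub_inv_le_log_of_pos (show 0 < 1 + 1 / (m : ℝ) by positivity)
        have h4 : 1 - (1 + 1 / (m : ℝ))⁻¹ = 1 / ((m : ℝ) + 1) := by field_simp; ring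
        rwa [h4] at h3
      have h5 : (1 + 1 / (m : ℝ)) ^ (m + 1) = Real.exp ((m + 1 : ℕ) * Real.log (1 + 1 / m)) := by
        rw [Real.exp_nat_mul, Real.exp_log (by positivity)]
      rw [h5]
      refine Real.exp_le_exp.mpr ?_
      push_cast
      calc (1 : ℝ) = (m + 1) * (1 / (m + 1)) := by field_simp
        _ ≤ _ := mul_le_mul_of_nonneg_left h2 (by positivity)
    have h6 : Real.exp 1 * (m : ℝ) ^ (m + 1) ≤ ((m : ℝ) + 1) ^ (m + 1) := by
      calc Real.exp 1 * (m : ℝ) ^ (m + 1) ≤ (1 + 1 / (m : ℝ)) ^ (m + 1) * (m : ℝ) ^ (m + 1) :=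
            mul_le_mul_of_nonneg_right h1 (by positivity)
        _ = ((m : ℝ) + 1) ^ (m + 1) := by rw [← mul_pow]; congr 1; field_simp
    rw [Nat.factorial_succ]
    push_cast
    calc ((m : ℝ) + 1) * (m.factorial : ℝ) ≤ ((m : ℝ) + 1) * (Real.exp 1 * m * (m / Real.exp 1) ^ m) :=
          mul_le_mul_of_nonneg_left ih (by positivity)
      _ = ((m : ℝ) + 1) * (Real.exp 1 * (m : ℝ) ^ (m + 1)) / Real.exp 1 ^ m := by rw [div_pow, pow_succ]; ring
      _ ≤ ((m : ℝ) + 1) * ((m : ℝ) + 1) ^ (m + 1) / Real.exp 1 ^ m := by gcongr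
      _ = _ := by rw [div_pow, pow_succ (Real.exp 1)]; field_simp

/-- the tail of a linear form: `V` at least the sum of the squares (twice the variance) -/
theorem tail : ∃ T₀ : ℝ, 1 ≤ T₀ ∧ ∀ T Y : ℝ, T₀ ≤ T → 1 ≤ Y → ∀ (Q : Finset ℕ) (w : ℕ → ℂ) (H V : ℝ),
    (∀ p ∈ Q, p.Prime ∧ (p : ℝ) ≤ Y) → 0 < H → 0 < V → ∑ p ∈ Q, ‖w p‖ ^ 2 / p ≤ V →
    Y ^ (H ^ 2 / V + 1) ≤ T ^ (1 / 16 : ℝ) →
    volume {t : ℝ | t ∈ Icc T (2 * T) ∧ H ≤ |(DC Q w t).re|} ≤
      ENNReal.ofReal (16 * (1 + H ^ 2 / V) * Real.exp (-(H ^ 2 / V)) * T) := by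
  obtain ⟨T0, hT0, h0⟩ := mom_up
  refine ⟨T0, hT0, fun T Y hT hY Q w H V hQ hH hV hVs hlen => ?_⟩
  have hT' : 0 < T := by linarith
  obtain ⟨m, hm⟩ : ∃ m : ℕ, m = ⌊H ^ 2 / V⌋₊ := ⟨_, rfl⟩
  have hx0 : 0 ≤ H ^ 2 / V := by positivity
  have hm1 : (m : ℝ) ≤ H ^ 2 / V := by rw [hm]; exact Nat.floor_le hx0
  have hm2 : H ^ 2 / V < m + 1 := by rw [hm]; exact Nat.lt_floor_add_one _
  have hlen' : Y ^ (m + 1) ≤ T ^ (1 / 16 : ℝ) := by
    refine le_trans ?_ hlen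
    rw [← Real.rpow_natCast]
    refine Real.rpow_le_rpow_of_exponent_le hY ?_
    push_cast
    linarith
  have h1 := h0 T Y hT hY Q w m hQ hlen'
  have hS0 : 0 ≤ ∑ p ∈ Q, ‖w p‖ ^ 2 / (p : ℝ) := Finset.sum_nonneg fun p _ => by positivity
  have hc : Continuous fun t : ℝ => (DC Q w t).re ^ (2 * m) := (Complex.continuous_re.comp (DC_cont Q w)).pow _
  -- Markov
  have hmark : ENNReal.ofReal (H ^ (2 * m)) * volume {t : ℝ | t ∈ Icc T (2 * T) ∧ H ≤ |(DC Q w t).re|} ≤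
      ENNReal.ofReal (∫ t in Icc T (2 * T), (DC Q w t).re ^ (2 * m)) := by
    have hsub : {t : ℝ | t ∈ Icc T (2 * T) ∧ H ≤ |(DC Q w t).re|} ⊆
        {t : ℝ | t ∈ Icc T (2 * T) ∧ ENNReal.ofReal (H ^ (2 * m)) ≤ ENNReal.ofReal ((DC Q w t).re ^ (2 * m))} := by
      rintro t ⟨ht, h2⟩
      refine ⟨ht, ENNReal.ofReal_le_ofReal ?_⟩
      rw [← Even.pow_abs (even_two_mul m) (DC Q w t).re]
      exact pow_le_pow_left₀ hH.le h2 _
    rw [MeasureTheory.ofReal_integral_eq_lintegral_ofReal]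
    · refine le_trans (mul_le_mul_right (measure_mono hsub) _) ?_
      have h3 := mul_meas_ge_le_lintegral₀ (μ := volume.restrict (Icc T (2 * T)))
        (f := fun t => ENNReal.ofReal ((DC Q w t).re ^ (2 * m)))
        (ENNReal.measurable_ofReal.comp hc.measurable).aemeasurable (ENNReal.ofReal (H ^ (2 * m)))
      refine le_trans (mul_le_mul_right ?_ _) h3
      rw [Measure.restrict_apply' measurableSet_Icc]
      refine measure_mono fun t ht => ⟨ht.2, ht.1⟩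
    · exact hc.continuousOn.integrableOn_compact isCompact_Icc
    · exact Filter.Eventually.of_forall fun t => Even.pow_nonneg (even_two_mul m) _
  rcases Nat.eq_zero_or_pos m with hm0 | hm0
  · -- the trivial bound
    have h2 : volume {t : ℝ | t ∈ Icc T (2 * T) ∧ H ≤ |(DC Q w t).re|} ≤ ENNReal.ofReal T := by
      refine (measure_mono (fun t ht => ht.1)).trans (le_of_eq ?_)
      rw [Real.volume_Icc]
      congr 1
      ring
    refine h2.trans (ENNReal.ofReal_le_ofReal ?_)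
    have h3 : H ^ 2 / V < 1 := by
      rw [hm0] at hm2
      simpa using hm2
    have h4 : Real.exp (-1) ≤ Real.exp (-(H ^ 2 / V)) := Real.exp_le_exp.mpr (by linarith)
    have h5 : 1 / 3 ≤ Real.exp (-1) := by
      rw [Real.exp_neg, ← one_div]
      exact one_div_le_one_div_of_le (Real.exp_pos 1) (Real.exp_one_lt_d9.le.trans (by norm_num))
    have h6 : 1 ≤ 16 * (1 + H ^ 2 / V) * Real.exp (-(H ^ 2 / V)) := by nlinarith
    nlinarith
  · have hg : ((2 * m).factorial / (2 ^ m * m.factorial) : ℝ) * ((∑ p ∈ Q, ‖w p‖ ^ 2 / p) / 2) ^ m ≤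
        H ^ (2 * m) * (Real.exp 1 * m * Real.exp (-m)) := by
      rw [four_choose]
      have h4 : ((2 * m).choose m : ℝ) ≤ 4 ^ m := by
        have h5 := Nat.choose_le_two_pow (2 * m) m
        have h6 : ((2 * m).choose m : ℝ) ≤ 2 ^ (2 * m) := by exact_mod_cast h5
        rwa [pow_mul, show (2 : ℝ) ^ 2 = 4 by norm_num] at h6
      have h7 := fac_le m hm0
      have h8 : (m : ℝ) * V ≤ H ^ 2 := by rwa [le_div_iff₀ hV] at hm1
      calc (1 / 4 : ℝ) ^ m * ((2 * m).choose m : ℝ) * (m.factorial * (∑ p ∈ Q, ‖w p‖ ^ 2 / p) ^ m)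
          ≤ (1 / 4 : ℝ) ^ m * 4 ^ m * ((Real.exp 1 * m * (m / Real.exp 1) ^ m) * V ^ m) := by gcongr
        _ = Real.exp 1 * m * ((m * V) ^ m * (Real.exp 1 ^ m)⁻¹) := by
          rw [← mul_pow, show (1 / 4 : ℝ) * 4 = 1 by norm_num, one_pow, div_pow, mul_pow]
          field_simp
        _ ≤ Real.exp 1 * m * ((H ^ 2) ^ m * (Real.exp 1 ^ m)⁻¹) := by gcongr
        _ = _ := by
          rw [← pow_mul, ← Real.exp_nat_mul, mul_one, ← Real.exp_neg]
          ring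
    have hHp : 0 < H ^ (2 * m) := by positivity
    have h9 : ∫ t in Icc T (2 * T), (DC Q w t).re ^ (2 * m) ≤ H ^ (2 * m) * (2 * T * (Real.exp 1 * m * Real.exp (-m))) := by
      refine h1.trans ?_
      rw [mul_assoc]
      calc 2 * T * (((2 * m).factorial / (2 ^ m * m.factorial) : ℝ) * ((∑ p ∈ Q, ‖w p‖ ^ 2 / p) / 2) ^ m)
          ≤ 2 * T * (H ^ (2 * m) * (Real.exp 1 * m * Real.exp (-m))) := by gcongr
        _ = _ := by ring
    have h10 := hmark.trans (ENNReal.ofReal_le_ofReal h9)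
    rw [ENNReal.ofReal_mul hHp.le] at h10
    have h11 : volume {t : ℝ | t ∈ Icc T (2 * T) ∧ H ≤ |(DC Q w t).re|} ≤
        ENNReal.ofReal (2 * T * (Real.exp 1 * m * Real.exp (-m))) := by
      rwa [ENNReal.mul_le_mul_iff_right (by simpa using hHp) ENNReal.ofReal_ne_top] at h10
    refine h11.trans (ENNReal.ofReal_le_ofReal ?_)
    have h12 : Real.exp (-m) ≤ Real.exp 1 * Real.exp (-(H ^ 2 / V)) := by
      rw [← Real.exp_add]
      exact Real.exp_le_exp.mpr (by linarith)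
    have h13 : Real.exp 1 * Real.exp 1 ≤ 8 := by
      have h14 := Real.exp_one_lt_d9
      have h15 := Real.exp_pos 1
      nlinarith
    calc 2 * T * (Real.exp 1 * m * Real.exp (-m)) ≤ 2 * T * (Real.exp 1 * (H ^ 2 / V) * (Real.exp 1 * Real.exp (-(H ^ 2 / V)))) := by
          gcongr
      _ = 2 * (Real.exp 1 * Real.exp 1) * (H ^ 2 / V) * Real.exp (-(H ^ 2 / V)) * T := by ring
      _ ≤ 2 * 8 * (1 + H ^ 2 / V) * Real.exp (-(H ^ 2 / V)) * T := by
          gcongr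
          linarith
      _ = _ := by ring

/-- the union over a finite family of linear forms -/
theorem tail_union : ∃ T₀ : ℝ, 1 ≤ T₀ ∧ ∀ T Y : ℝ, T₀ ≤ T → 1 ≤ Y → ∀ {ι : Type} (I : Finset ι) (Q : ι → Finset ℕ)
    (w : ι → ℕ → ℂ) (H V : ℝ), (∀ i ∈ I, ∀ p ∈ Q i, p.Prime ∧ (p : ℝ) ≤ Y) → 0 < H → 0 < V →
    (∀ i ∈ I, ∑ p ∈ Q i, ‖w i p‖ ^ 2 / p ≤ V) → Y ^ (H ^ 2 / V + 1) ≤ T ^ (1 / 16 : ℝ) →
    volume {t : ℝ | t ∈ Icc T (2 * T) ∧ ∃ i ∈ I, H ≤ |(DC (Q i) (w i) t).re|} ≤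
      ENNReal.ofReal (I.card * (16 * (1 + H ^ 2 / V) * Real.exp (-(H ^ 2 / V))) * T) := by
  obtain ⟨T0, hT0, h0⟩ := tail
  refine ⟨T0, hT0, fun T Y hT hY ι I Q w H V hQ hH hV hVs hlen => ?_⟩
  have hT' : 0 < T := by linarith
  have hsub : {t : ℝ | t ∈ Icc T (2 * T) ∧ ∃ i ∈ I, H ≤ |(DC (Q i) (w i) t).re|} ⊆
      ⋃ i ∈ I, {t : ℝ | t ∈ Icc T (2 * T) ∧ H ≤ |(DC (Q i) (w i) t).re|} := by
    rintro t ⟨ht, i, hi, h⟩
    rw [Set.mem_iUnion₂]
    exact ⟨i, hi, ht, h⟩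
  refine (measure_mono hsub).trans ((measure_biUnion_finset_le _ _).trans ?_)
  refine (Finset.sum_le_sum fun i hi => h0 T Y hT hY (Q i) (w i) H V (hQ i hi) hH hV (hVs i hi) hlen).trans ?_
  rw [Finset.sum_const, nsmul_eq_mul, mul_assoc (I.card : ℝ), ENNReal.ofReal_mul (p := (I.card : ℝ)) (by positivity),
    ENNReal.ofReal_natCast]

end Pool.Agent.Helper28.OR
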