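import Pool.Agent.Helper28.OR.TA
import Pool.Agent.Helper82.OR.HypOf

/-!
# OR: the exponential moments of the linear forms of the levels, from `ml`
-/

set_option autoImplicit false
open MeasureTheory Set Filter Topology
open Pool.Agent.Helper93.UG (zc sp)
open Pool.Agent.Helper57.TX (QX DP rs)
open Pool.Agent.Helper62.OP (DC Xo Pp Nt rho Ms pr Rng)
open Pool.Agent.Helper93.OR
open Pool.Agent.Helper72.OR
open Pool.Agent.Helper82.OR (Aset StExp Aset_meas)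

namespace Pool.Agent.Helper28.OR

/-- The statement of ML (helper93, helper62). -/
def StMl : Prop := ∃ T₀ : ℝ, 1 ≤ T₀ ∧ ∀ T Y : ℝ, T₀ ≤ T → 1 ≤ Y → ∀ (Q : Finset ℕ) (w : ℕ → ℂ) (N : ℕ) (A : Set ℝ) (V x B : ℝ),
    (∀ p ∈ Q, p.Prime ∧ (p : ℝ) ≤ Y) → V = ∑ p ∈ Q, ‖w p‖ ^ 2 / p → Y ^ (N + 1) ≤ T ^ (1 / 16 : ℝ) → 2 ∣ N →
    MeasurableSet A → A ⊆ Icc T (2 * T) → (∀ t ∈ A, |(DC Q w t).re| ≤ N / 16) →
    volume (Icc T (2 * T) \ A) ≤ ENNReal.ofReal (Real.exp (-B) * T) → (∀ p ∈ Q, ‖w p‖ ^ 2 / p ≤ x) → 0 ≤ x → V ≤ N / 16 →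
    (N : ℝ) * Real.sqrt x ≤ 1 →
    |(∫ t in A, Real.exp (DC Q w t).re) - T * Real.exp (V / 4)| ≤
      (T ^ (-(1 / 4) : ℝ) * Real.exp (V + 1) + 2 * (N : ℝ) ^ 2 * Real.sqrt x + 2 * Real.exp (-(N / 2 : ℝ)) +
        2 * (N + 1) * Real.exp ((V - B) / 2)) * T * Real.exp (V / 4)

lemma ev (n : ℕ) (hn : 1 ≤ n) {δ : ℝ} (hδ : 0 < δ) {K : ℝ} (hK : 0 ≤ K) : ∃ L₀ : ℝ, 1 ≤ L₀ ∧ ∀ L : ℝ, L₀ ≤ L →
    K ≤ Real.log L ∧ Real.log L ^ 4 ≤ L ^ (1 / (4 * n) : ℝ) ∧ 6 * Real.log L ≤ L ^ δ ∧ K * Real.log L ≤ L := by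
  have hn0 : (0:ℝ) < n := by exact_mod_cast hn
  have h1 : ∀ᶠ L : ℝ in atTop, K ≤ Real.log L := Real.tendsto_log_atTop.eventually_ge_atTop _
  have h2 : ∀ᶠ L : ℝ in atTop, ‖Real.log L‖ ≤ 1 * ‖L ^ (1 / (16 * n) : ℝ)‖ :=
    (isLittleO_log_rpow_atTop (by positivity)).bound (by norm_num)
  have h3 : ∀ᶠ L : ℝ in atTop, ‖Real.log L‖ ≤ (1 / 6) * ‖L ^ δ‖ := (isLittleO_log_rpow_atTop hδ).bound (by norm_num)
  have h4 : ∀ᶠ L : ℝ in atTop, ‖Real.log L‖ ≤ (1 / (K + 1)) * ‖L ^ (1:ℝ)‖ :=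
    (isLittleO_log_rpow_atTop one_pos).bound (by positivity)
  obtain ⟨L1, hL1⟩ := eventually_atTop.mp (h1.and (h2.and (h3.and h4)))
  refine ⟨max L1 1, le_max_right _ _, fun L hL => ?_⟩
  have hL11 : L1 ≤ L := (le_max_left _ _).trans hL
  have hL0 : 1 ≤ L := (le_max_right _ _).trans hL
  have hLp : 0 < L := by linarith
  have hl : 0 ≤ Real.log L := Real.log_nonneg hL0
  obtain ⟨g1, g2, g3, g4⟩ := hL1 L hL11
  rw [Real.norm_eq_abs, Real.norm_eq_abs, abs_of_nonneg hl, abs_of_nonneg (by positivity)] at g2 g3 g4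
  refine ⟨g1, ?_, by linarith, ?_⟩
  · calc Real.log L ^ 4 ≤ (L ^ (1 / (16 * n) : ℝ)) ^ 4 := pow_le_pow_left₀ hl (by linarith) 4
      _ = L ^ (1 / (4 * n) : ℝ) := by
        rw [← Real.rpow_natCast, ← Real.rpow_mul hLp.le]
        congr 1
        push_cast
        field_simp
        norm_num
  · rw [Real.rpow_one] at g4
    have h5 : (K + 1) * Real.log L ≤ L := by
      calc (K + 1) * Real.log L ≤ (K + 1) * (1 / (K + 1) * L) := mul_le_mul_of_nonneg_left g4 (by positivity)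
        _ = L := by field_simp
    linarith

lemma num {J ℓ P R : ℝ} (hJ : 0 ≤ J) (h : 2000000 + 300000 * J ≤ ℓ) (hP : 6 * ℓ ≤ P) (hR : (2000000 + 300000 * J) * ℓ ≤ R) :
    48 * J * Real.exp ℓ * (1 + ℓ ^ 3 / 16) * Real.exp (-(ℓ ^ 3 / 16)) ≤ Real.exp (-(ℓ ^ 3 / 32)) ∧
    2 * (4 * ℓ ^ 3 + 1) * Real.exp ((4096 * J * ℓ - ℓ ^ 3 / 32) / 2) ≤ Real.exp (-ℓ) ∧
    2 * Real.exp (-(ℓ ^ 3)) ≤ Real.exp (-ℓ) ∧
    2 * (4 * ℓ ^ 3) ^ 2 * (64 * Real.exp (-(P / 2))) ≤ Real.exp (-ℓ) ∧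
    Real.exp (-(R / 4)) * Real.exp (4096 * J * ℓ + 1) ≤ Real.exp (-ℓ) ∧
    4 * ℓ ^ 3 * (64 * Real.exp (-(P / 2))) ≤ 1 := by
  have hl : 2000000 ≤ ℓ := by linarith
  have hl0 : 0 < ℓ := by linarith
  obtain ⟨a, ha⟩ : ∃ a, a = Real.exp ℓ := ⟨_, rfl⟩
  have hla : ℓ ≤ a := by rw [ha]; linarith [Real.add_one_le_exp ℓ]
  have h3 : ℓ ^ 3 ≤ 6 * a := by
    have := Real.pow_div_factorial_le_exp ℓ hl0.le 3
    rw [← ha, div_le_iff₀ (by positivity)] at this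
    norm_num [Nat.factorial] at this
    linarith
  have h6 : ℓ ^ 6 ≤ 720 * a := by
    have := Real.pow_div_factorial_le_exp ℓ hl0.le 6
    rw [← ha, div_le_iff₀ (by positivity)] at this
    norm_num [Nat.factorial] at this
    linarith
  have ha0 : 0 < a := by linarith
  have ha1 : 2000000 ≤ a := by linarith
  have hl2 : 2000000 * ℓ + 300000 * J * ℓ ≤ ℓ ^ 2 := by nlinarith
  have hJl : 0 ≤ J * ℓ := by positivity
  have hl3 : 2000000 * ℓ + 300000 * J * ℓ ≤ ℓ ^ 3 := by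
    calc 2000000 * ℓ + 300000 * J * ℓ ≤ 1 * ℓ ^ 2 := by linarith
      _ ≤ ℓ * ℓ ^ 2 := by gcongr; linarith
      _ = ℓ ^ 3 := by ring
  have hJa : J ≤ a := by linarith
  refine ⟨?_, ?_, ?_, ?_, ?_, ?_⟩
  · calc 48 * J * Real.exp ℓ * (1 + ℓ ^ 3 / 16) * Real.exp (-(ℓ ^ 3 / 16)) ≤ a * a * a * a * Real.exp (-(ℓ ^ 3 / 16)) := by
          rw [← ha]
          gcongr
          · linarith
          · linarith
      _ = Real.exp (ℓ + ℓ + ℓ + ℓ + -(ℓ ^ 3 / 16)) := by rw [ha, Real.exp_add, Real.exp_add, Real.exp_add, Real.exp_add]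
      _ ≤ _ := Real.exp_le_exp.2 (by linarith)
  · calc 2 * (4 * ℓ ^ 3 + 1) * Real.exp ((4096 * J * ℓ - ℓ ^ 3 / 32) / 2) ≤ a * a * Real.exp ((4096 * J * ℓ - ℓ ^ 3 / 32) / 2) := by
          apply mul_le_mul_of_nonneg_right _ (Real.exp_pos _).le
          nlinarith
      _ = Real.exp (ℓ + ℓ + (4096 * J * ℓ - ℓ ^ 3 / 32) / 2) := by rw [ha, Real.exp_add, Real.exp_add]
      _ ≤ _ := Real.exp_le_exp.2 (by linarith)
  · calc 2 * Real.exp (-(ℓ ^ 3)) ≤ a * Real.exp (-(ℓ ^ 3)) := by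
          gcongr
          linarith
      _ = Real.exp (ℓ + -(ℓ ^ 3)) := by rw [ha, Real.exp_add]
      _ ≤ _ := Real.exp_le_exp.2 (by linarith)
  · calc 2 * (4 * ℓ ^ 3) ^ 2 * (64 * Real.exp (-(P / 2))) = 2048 * ℓ ^ 6 * Real.exp (-(P / 2)) := by ring
      _ ≤ a * a * Real.exp (-(P / 2)) := by
          apply mul_le_mul_of_nonneg_right _ (Real.exp_pos _).le
          nlinarith
      _ = Real.exp (ℓ + ℓ + -(P / 2)) := by rw [ha, Real.exp_add, Real.exp_add]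
      _ ≤ _ := Real.exp_le_exp.2 (by linarith)
  · rw [← Real.exp_add]
    exact Real.exp_le_exp.2 (by nlinarith)
  · calc 4 * ℓ ^ 3 * (64 * Real.exp (-(P / 2))) = 256 * ℓ ^ 3 * Real.exp (-(P / 2)) := by ring
      _ ≤ a * a * Real.exp (-(P / 2)) := by
          apply mul_le_mul_of_nonneg_right _ (Real.exp_pos _).le
          nlinarith
      _ = Real.exp (ℓ + ℓ + -(P / 2)) := by rw [ha, Real.exp_add, Real.exp_add]
      _ ≤ Real.exp 0 := Real.exp_le_exp.2 (by linarith)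
      _ = 1 := Real.exp_zero

lemma wsh_norm (n : ℕ) (T L x : ℝ) (p : ℕ) : ‖wsh n T L x p‖ = ‖w0 n T L p‖ := by
  unfold wsh
  rw [norm_mul]
  have : ‖Complex.exp (-((x * sp T * Real.log p : ℝ) : ℂ) * Complex.I)‖ = 1 := by
    have h := Complex.norm_exp_ofReal_mul_I (-(x * sp T * Real.log p))
    push_cast at h ⊢
    exact h
  rw [this, mul_one]

lemma card_int {L : ℝ} (hL : 1 ≤ L) : ((Finset.Icc ⌈-L⌉ ⌊L⌋).card : ℝ) ≤ 3 * L := by
  rw [Int.card_Icc]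
  have h1 := Int.floor_le L
  have h2 := Int.le_ceil (-L)
  have h3 : ((⌊L⌋ + 1 - ⌈-L⌉).toNat : ℝ) = ((⌊L⌋ + 1 - ⌈-L⌉ : ℤ) : ℝ) := by
    have h4 : 0 ≤ ⌊L⌋ + 1 - ⌈-L⌉ := by
      have h5 : 1 ≤ ⌊L⌋ := Int.le_floor.2 (by exact_mod_cast hL)
      have h6 : ⌈-L⌉ ≤ 0 := Int.ceil_le.2 (by push_cast; linarith)
      omega
    exact_mod_cast congrArg (fun z : ℤ => (z : ℝ)) (Int.toNat_of_nonneg h4)
  rw [h3]
  push_cast
  linarith

/-- the exponential moments -/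
theorem exp_of {n q : ℕ} (hn : 4 ≤ n) (hq : 1 ≤ q) {δ : ℝ} (hδ : 0 < δ) (hδ1 : δ ≤ 1) (hnd : 1 / n ≤ δ) (hml : StMl) :
    StExp n q δ := by
  obtain ⟨T1, hT11, H1⟩ := hml
  obtain ⟨c2, C2, T2, hc2, hC2, H2⟩ := lev_var hn hq hδ hδ1 hnd
  obtain ⟨C3, T3, hC3, H3⟩ := lev_range hn hδ hδ1 hnd
  obtain ⟨T4, hT41, H4⟩ := tail_union
  obtain ⟨J, hJ⟩ : ∃ J : ℝ, J = JJ n q := ⟨_, rfl⟩
  have hJ0 : 0 ≤ J := by rw [hJ]; positivity
  obtain ⟨L0, hL0, HL⟩ := ev n (by omega) hδ (K := 2000000 + 300000 * J + 2 * C2) (by positivity)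
  refine ⟨1, 4, max L0 (max C2 C3), max (max T1 T2) (max (max T3 T4) 3), one_pos, by norm_num,
    fun T L hT hL hLT a b ha hb x hx y hy => ?_⟩
  have hT1 : T1 ≤ T := ((le_max_left _ _).trans (le_max_left _ _)).trans hT
  have hT2 : T2 ≤ T := ((le_max_right _ _).trans (le_max_left _ _)).trans hT
  have hT3 : T3 ≤ T := (((le_max_left _ _).trans (le_max_left _ _)).trans (le_max_right _ _)).trans hT
  have hT4 : T4 ≤ T := (((le_max_right _ _).trans (le_max_left _ _)).trans (le_max_right _ _)).trans hT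
  have hT5 : 3 ≤ T := ((le_max_right _ _).trans (le_max_right _ _)).trans hT
  have hLL0 : L0 ≤ L := (le_max_left _ _).trans hL
  have hLC2 : C2 ≤ L := ((le_max_left _ _).trans (le_max_right _ _)).trans hL
  have hLC3 : C3 ≤ L := ((le_max_right _ _).trans (le_max_right _ _)).trans hL
  have hL1 : 1 ≤ L := hL0.trans hLL0
  have hLp : 0 < L := by linarith
  have hT0 : 0 < T := by linarith
  obtain ⟨e1, e2, e3, e4⟩ := HL L hLL0
  obtain ⟨hlT, hLlT, -, -⟩ := basic (n := n) hδ hδ1 hnd hT5 hL1 hLT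
  have hlT0 : 0 ≤ Real.log T := by linarith
  obtain ⟨ℓ, hℓ⟩ : ∃ ℓ, ℓ = Real.log L := ⟨_, rfl⟩
  rw [← hℓ] at e1 e2 e3 e4
  have hel : Real.exp ℓ = L := by rw [hℓ, Real.exp_log hLp]
  have hJC : 2000000 + 300000 * J ≤ ℓ := by linarith
  have hl0 : 2000000 ≤ ℓ := by linarith
  have hlp : 0 < ℓ := by linarith
  obtain ⟨P, hP⟩ : ∃ P, P = Real.log T ^ δ := ⟨_, rfl⟩
  have hPl : 6 * ℓ ≤ P := by
    rw [hP]
    exact e3.trans (Real.rpow_le_rpow hLp.le hLlT hδ.le)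
  have hRl : (2000000 + 300000 * J) * ℓ ≤ Real.log T := by
    refine le_trans ?_ (e4.trans hLlT)
    apply mul_le_mul_of_nonneg_right _ hlp.le
    linarith
  obtain ⟨n1, n2, n3, n4, n5, n6⟩ := num hJ0 hJC hPl hRl
  -- the levels
  obtain ⟨Js, hJs⟩ : ∃ Js, Js = Finset.Icc 5 (JJ n q) := ⟨_, rfl⟩
  have hJs1 : ∀ j ∈ Js, 1 ≤ j := fun j hj => by rw [hJs, Finset.mem_Icc] at hj; omega
  have hJsin : ∀ j ∈ Js, j ∈ Finset.Icc 1 (JJ n q) := fun j hj => by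
    rw [hJs, Finset.mem_Icc] at hj
    rw [Finset.mem_Icc]
    exact ⟨by omega, hj.2⟩
  have hJsc : (Js.card : ℝ) ≤ J := by
    rw [hJs, Nat.card_Icc, hJ]
    exact_mod_cast (by omega : JJ n q + 1 - 5 ≤ JJ n q)
  have hvar : ∀ j ∈ Js, VV (lev n q T L j) (w0 n T L) ≤ ℓ := by
    intro j hj
    have h1 := (H2 T L hT2 hLC2 hLT j (hJsin j hj)).1
    rw [abs_le] at h1
    have h2 : L ^ (-c2) ≤ 1 := Real.rpow_le_one_of_one_le_of_nonpos hL1 (by linarith)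
    have h3 : 2 * Wb n q L / Real.pi ^ 2 ≤ ℓ / 2 := by
      unfold Wb
      rw [← hℓ]
      have hpi := Real.pi_gt_three
      have hn4 : (4:ℝ) ≤ n := by exact_mod_cast hn
      have hq1 : (1:ℝ) ≤ q := by exact_mod_cast hq
      have hnq : 1 ≤ (n:ℝ) * q := by nlinarith
      have h4 : ℓ / (2 * (n * q)) ≤ ℓ / 2 := by
        apply div_le_div_of_nonneg_left hlp.le (by norm_num)
        linarith
      rw [div_le_iff₀ (by positivity)]
      have h6 : (9:ℝ) ≤ Real.pi ^ 2 := by nlinarith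
      have h7 : ℓ / 2 * 9 ≤ ℓ / 2 * Real.pi ^ 2 := mul_le_mul_of_nonneg_left h6 (by positivity)
      linarith
    have h5 : C2 * L ^ (-c2) ≤ C2 := mul_le_of_le_one_right (by linarith) h2
    linarith [h1.2]
  have hcoef : ∀ j ∈ Js, ∀ p ∈ lev n q T L j, ‖w0 n T L p‖ ^ 2 / p ≤ Real.exp (-P) := by
    intro j hj p hp
    rw [hP]
    exact (H2 T L hT2 hLC2 hLT j (hJsin j hj)).2 p hp
  obtain ⟨r1, r2, r3⟩ := H3 T L hT3 hLC3 hLT
  have hlevQ : ∀ j, ∀ p ∈ lev n q T L j, p.Prime ∧ (p : ℝ) ≤ Real.exp (Xn n T L) := by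
    intro j p hp
    unfold lev at hp
    rw [Finset.mem_filter] at hp
    exact ⟨(r1 p hp.1).1, (r1 p hp.1).2.1⟩
  have hY : 1 ≤ Real.exp (Xn n T L) := Real.one_le_exp (by linarith)
  -- N
  obtain ⟨N, hN⟩ : ∃ N : ℕ, N = 2 * ⌈ℓ ^ 3⌉₊ := ⟨_, rfl⟩
  have hl3 : 1 ≤ ℓ ^ 3 := one_le_pow₀ (by linarith)
  have hN1 : 2 * ℓ ^ 3 ≤ N := by
    rw [hN]
    push_cast
    linarith [Nat.le_ceil (ℓ ^ 3)]
  have hN2 : (N : ℝ) ≤ 4 * ℓ ^ 3 := by
    rw [hN]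
    push_cast
    linarith [Nat.ceil_lt_add_one (show 0 ≤ ℓ ^ 3 by positivity)]
  have hN3 : (N : ℝ) ≤ L ^ (1 / (4 * n) : ℝ) := by
    refine hN2.trans (le_trans ?_ e2)
    calc 4 * ℓ ^ 3 ≤ ℓ * ℓ ^ 3 := by gcongr; linarith
      _ = ℓ ^ 4 := by ring
  have hYN := r3 N hN3
  -- the form
  obtain ⟨w, hw⟩ : ∃ w, w = wf n q T L Js a b (x : ℝ) (y : ℝ) := ⟨_, rfl⟩
  obtain ⟨V, hV⟩ : ∃ V, V = VV (lev' n q T L Js) w := ⟨_, rfl⟩
  have hVle : V ≤ 4096 * J * ℓ := by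
    rw [hV, hw, form_var hlT0 hL1 hJs1]
    have h1 : ∀ j ∈ Js, a j ^ 2 * VV (lev n q T L j) (w0 n T L) + b j ^ 2 * VV (lev n q T L j) (w0 n T L) +
        2 * a j * b j * cc n q T L j x y ≤ 4096 * ℓ := by
      intro j hj
      have h2 := hvar j hj
      have h3 := cc_abs n q T L j (x : ℝ) (y : ℝ)
      have h4 : 0 ≤ VV (lev n q T L j) (w0 n T L) := (abs_nonneg _).trans h3
      have h5 : a j ^ 2 ≤ 1024 := by
        rw [← sq_abs]
        have := pow_le_pow_left₀ (abs_nonneg _) (ha j) 2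
        linarith
      have h6 : b j ^ 2 ≤ 1024 := by
        rw [← sq_abs]
        have := pow_le_pow_left₀ (abs_nonneg _) (hb j) 2
        linarith
      have h7 : 2 * a j * b j * cc n q T L j x y ≤ 2 * 32 * 32 * ℓ := by
        refine (le_abs_self _).trans ?_
        rw [abs_mul, abs_mul, abs_mul, abs_two]
        have := ha j
        have := hb j
        have := h3.trans h2
        gcongr
      have h8 : a j ^ 2 * VV (lev n q T L j) (w0 n T L) ≤ 1024 * ℓ := by gcongr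
      have h9 : b j ^ 2 * VV (lev n q T L j) (w0 n T L) ≤ 1024 * ℓ := by gcongr
      linarith
    refine (Finset.sum_le_sum h1).trans ?_
    rw [Finset.sum_const, nsmul_eq_mul]
    calc (Js.card : ℝ) * (4096 * ℓ) ≤ J * (4096 * ℓ) := by gcongr
      _ = _ := by ring
  have hl32 : 300000 * J * ℓ ^ 2 ≤ ℓ ^ 3 := by
    calc 300000 * J * ℓ ^ 2 ≤ ℓ * ℓ ^ 2 := by gcongr; linarith
      _ = ℓ ^ 3 := by ring
  have hl12 : ℓ ≤ ℓ ^ 2 := by nlinarith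
  have hVN : V ≤ N / 16 := by
    have h1 : 4096 * J * ℓ ≤ 4096 * J * ℓ ^ 2 := by gcongr
    have h2 : 0 ≤ J * ℓ ^ 2 := by positivity
    linarith
  have hxcoef : ∀ p ∈ lev' n q T L Js, ‖w p‖ ^ 2 / p ≤ (64 * Real.exp (-(P / 2))) ^ 2 := by
    intro p hp
    obtain ⟨j, hj, hpj, h1⟩ := form_coef hlT0 hL1 hJs1 (H := 32) (fun j _ => ha j) (fun j _ => hb j) (x : ℝ) (y : ℝ) hp
    rw [hw]
    refine h1.trans ?_
    have h2 := hcoef j hj p hpj
    have h3 : Real.exp (-(P / 2)) ^ 2 = Real.exp (-P) := by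
      rw [← Real.exp_nat_mul]
      congr 1
      push_cast
      ring
    rw [mul_pow, h3]
    linarith
  have hsq : Real.sqrt ((64 * Real.exp (-(P / 2))) ^ 2) = 64 * Real.exp (-(P / 2)) := Real.sqrt_sq (by positivity)
  -- the bound on A
  have hpi := Real.pi_gt_three
  have hpi4 := Real.pi_lt_four
  have hbd : ∀ t ∈ Aset n q T L, |(DC (lev' n q T L Js) w t).re| ≤ N / 16 := by
    intro t ht
    rw [hw, form_eq hlT0 hL1 hJs1]
    have h1 : ∀ j ∈ Js, ∀ z ∈ Finset.Icc ⌈-L⌉ ⌊L⌋, |DD n T L (lev n q T L j) t (z : ℝ)| ≤ ℓ ^ 2 := by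
      intro j hj z hz
      rw [hJs] at hj
      have h2 := ht.2 j hj z hz
      rw [abs_mul, abs_of_pos Real.pi_pos, ← hℓ] at h2
      nlinarith [abs_nonneg (DD n T L (lev n q T L j) t (z : ℝ))]
    have h2 : ∀ j ∈ Js, |a j * DD n T L (lev n q T L j) t x + b j * DD n T L (lev n q T L j) t y| ≤ 64 * ℓ ^ 2 := by
      intro j hj
      refine (abs_add_le _ _).trans ?_
      rw [abs_mul, abs_mul]
      have h3 := h1 j hj x hx
      have h4 := h1 j hj y hy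
      have h5 := ha j
      have h6 := hb j
      calc |a j| * |DD n T L (lev n q T L j) t x| + |b j| * |DD n T L (lev n q T L j) t y| ≤ 32 * ℓ ^ 2 + 32 * ℓ ^ 2 := by gcongr
        _ = _ := by ring
    refine (Finset.abs_sum_le_sum_abs _ _).trans ((Finset.sum_le_sum h2).trans ?_)
    rw [Finset.sum_const, nsmul_eq_mul]
    have h3 : (Js.card : ℝ) * (64 * ℓ ^ 2) ≤ J * (64 * ℓ ^ 2) := by gcongr
    have h4 : 0 ≤ J * ℓ ^ 2 := by positivity
    linarith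
  -- the exceptional set
  have hexc : volume (Icc T (2 * T) \ Aset n q T L) ≤ ENNReal.ofReal (Real.exp (-(ℓ ^ 3 / 32)) * T) := by
    have h1 := H4 T (Real.exp (Xn n T L)) hT4 hY (ι := ℕ × ℤ) (Js ×ˢ Finset.Icc ⌈-L⌉ ⌊L⌋) (fun i => lev n q T L i.1)
      (fun i => wsh n T L (i.2 : ℝ)) (ℓ ^ 2 / 4) ℓ (fun i _ => hlevQ i.1) (by positivity) hlp ?_ ?_
    · refine (measure_mono ?_).trans (h1.trans (ENNReal.ofReal_le_ofReal ?_))
      · rintro t ⟨ht, h2⟩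
        refine ⟨ht, ?_⟩
        unfold Aset at h2
        rw [Set.mem_ofPred_eq] at h2
        push Not at h2
        obtain ⟨j, hj, i, hi, h3⟩ := h2 ht
        refine ⟨(j, i), Finset.mem_product.2 ⟨by rw [hJs]; exact hj, hi⟩, ?_⟩
        simp only
        rw [← DC_shift n T L (i : ℝ) t fun p hp => lev_prime hp]
        rw [abs_mul, abs_of_pos Real.pi_pos, ← hℓ] at h3
        unfold DD at h3
        nlinarith [abs_nonneg (DC (lev n q T L j) (w0 n T L) (t + (i : ℝ) * sp T)).re]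
      · have h2 : ((Js ×ˢ Finset.Icc ⌈-L⌉ ⌊L⌋).card : ℝ) ≤ J * (3 * L) := by
          rw [Finset.card_product]
          push_cast
          exact mul_le_mul hJsc (card_int hL1) (by positivity) hJ0
        have h3 : (ℓ ^ 2 / 4) ^ 2 / ℓ = ℓ ^ 3 / 16 := by
          field_simp
          norm_num
        rw [h3]
        calc ((Js ×ˢ Finset.Icc ⌈-L⌉ ⌊L⌋).card : ℝ) * (16 * (1 + ℓ ^ 3 / 16) * Real.exp (-(ℓ ^ 3 / 16))) * T ≤
            (J * (3 * L)) * (16 * (1 + ℓ ^ 3 / 16) * Real.exp (-(ℓ ^ 3 / 16))) * T := by gcongr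
          _ = (48 * J * Real.exp ℓ * (1 + ℓ ^ 3 / 16) * Real.exp (-(ℓ ^ 3 / 16))) * T := by rw [hel]; ring
          _ ≤ _ := by gcongr
    · rintro ⟨j, i⟩ hi
      rw [Finset.mem_product] at hi
      simp only [wsh_norm]
      exact hvar j hi.1
    · have h3 : (ℓ ^ 2 / 4) ^ 2 / ℓ = ℓ ^ 3 / 16 := by
        field_simp
        norm_num
      rw [h3]
      refine le_trans ?_ hYN
      rw [← Real.rpow_natCast (Real.exp (Xn n T L)) (N + 1)]
      apply Real.rpow_le_rpow_of_exponent_le hY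
      push_cast
      linarith
  have hmain := H1 T (Real.exp (Xn n T L)) hT1 hY (lev' n q T L Js) w N (Aset n q T L) V ((64 * Real.exp (-(P / 2))) ^ 2) (ℓ ^ 3 / 32)
    (fun p hp => by
      unfold lev' at hp
      rw [Finset.mem_biUnion] at hp
      obtain ⟨j, _, hpj⟩ := hp
      exact hlevQ j p hpj) (by rw [hV]; rfl) hYN (by rw [hN]; exact dvd_mul_right _ _) (Aset_meas n q T L) (fun t ht => ht.1) hbd hexc
    hxcoef (by positivity) hVN (by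
      rw [hsq]
      refine le_trans ?_ n6
      gcongr)
  rw [hsq] at hmain
  -- the error
  have hLi : L ^ (-(1:ℝ)) = Real.exp (-ℓ) := by
    rw [Real.rpow_neg_one, Real.exp_neg, hel]
  have herr : T ^ (-(1 / 4) : ℝ) * Real.exp (V + 1) + 2 * (N : ℝ) ^ 2 * (64 * Real.exp (-(P / 2))) + 2 * Real.exp (-(N / 2 : ℝ)) +
      2 * (N + 1) * Real.exp ((V - ℓ ^ 3 / 32) / 2) ≤ 4 * L ^ (-(1:ℝ)) := by
    rw [hLi]
    have g1 : T ^ (-(1 / 4) : ℝ) * Real.exp (V + 1) ≤ Real.exp (-ℓ) := by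
      refine le_trans ?_ n5
      have : T ^ (-(1 / 4) : ℝ) = Real.exp (-(Real.log T / 4)) := by
        rw [Real.rpow_def_of_pos hT0]
        congr 1
        ring
      rw [this]
      gcongr
    have g2 : 2 * (N : ℝ) ^ 2 * (64 * Real.exp (-(P / 2))) ≤ Real.exp (-ℓ) := by
      refine le_trans ?_ n4
      gcongr
    have g3 : 2 * Real.exp (-(N / 2 : ℝ)) ≤ Real.exp (-ℓ) := by
      refine le_trans ?_ n3
      gcongr
      linarith
    have g4 : 2 * ((N:ℝ) + 1) * Real.exp ((V - ℓ ^ 3 / 32) / 2) ≤ Real.exp (-ℓ) := by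
      refine le_trans ?_ n2
      gcongr
    linarith
  have hfin : |(∫ t in Aset n q T L, Real.exp (DC (lev' n q T L Js) w t).re) - T * Real.exp (V / 4)| ≤
      4 * L ^ (-(1:ℝ)) * T * Real.exp (V / 4) := by
    refine hmain.trans ?_
    gcongr
  rw [abs_le] at hfin
  rw [hJs] at hw hV hfin
  rw [hw] at hV hfin
  rw [hV] at hfin
  constructor
  · linarith [hfin.1]
  · linarith [hfin.2]

end Pool.Agent.Helper28.OR
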