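import Pool.Agent.Helper93.OR.Fin0
import Pool.Agent.Helper57.NS.Asm

/-!
# OR, block FI2: from the points to the ordinates
-/

set_option autoImplicit false
open MeasureTheory Set Filter Topology
open Pool.Agent.Helper93.UG (zc sp)
open Pool.Agent.Helper57.NS (cnt)

namespace Pool.Agent.Helper28.OR

open Pool.Agent.Helper93.OR (Fin0)

section cnt

lemma cnt_sub {T t α β : ℝ} {W : Set ℝ} (hs : 0 < sp T) (hW : W ⊆ Icc α β) :
    {u : ℝ | (u - t) / sp T ∈ W} ⊆ Icc (t + α * sp T) (t + β * sp T) := by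
  intro u hu
  have h1 := hW hu
  rw [mem_Icc, le_div_iff₀ hs, div_le_iff₀ hs] at h1
  exact ⟨by linarith [h1.1], by linarith [h1.2]⟩

lemma cnt_mono {T t α β : ℝ} {V W : Set ℝ} (hs : 0 < sp T) (hVW : V ⊆ W) (hW : W ⊆ Icc α β) : cnt T t V ≤ cnt T t W := by
  unfold cnt
  have h1 : {u : ℝ | (u - t) / sp T ∈ V} ⊆ {u : ℝ | (u - t) / sp T ∈ W} := fun u hu => hVW hu
  exact_mod_cast Pool.Agent.Helper56.UG.zc_mono h1 (cnt_sub (t := t) hs hW)

lemma cnt_nonneg (T t : ℝ) (W : Set ℝ) : 0 ≤ cnt T t W := Nat.cast_nonneg _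

lemma cnt_union {T t α β : ℝ} {V W : Set ℝ} (hs : 0 < sp T) (hV : V ⊆ Icc α β) (hW : W ⊆ Icc α β) (hd : Disjoint V W) :
    cnt T t (V ∪ W) = cnt T t V + cnt T t W := by
  unfold cnt
  have h1 : {u : ℝ | (u - t) / sp T ∈ V ∪ W} = {u : ℝ | (u - t) / sp T ∈ V} ∪ {u : ℝ | (u - t) / sp T ∈ W} := rfl
  rw [h1, Pool.Agent.Helper56.UG.zc_union (cnt_sub hs hV) (cnt_sub hs hW), Nat.cast_add]
  rw [Set.disjoint_left] at hd ⊢
  exact fun u h1 h2 => hd h1 h2

lemma cnt_shift {T t t' v a b : ℝ} (hs : 0 < sp T) (hv : t' = t + v * sp T) :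
    cnt T t (Icc a b) = cnt T t' (Icc (a - v) (b - v)) := by
  unfold cnt
  congr 2
  ext u
  simp only [Set.mem_ofPred_eq, mem_Icc]
  have h1 : (u - t') / sp T = (u - t) / sp T - v := by
    rw [hv]
    field_simp
    ring
  rw [h1]
  constructor
  · rintro ⟨h2, h3⟩
    exact ⟨by linarith, by linarith⟩
  · rintro ⟨h2, h3⟩
    exact ⟨by linarith, by linarith⟩

end cnt

/-- the shift to the right by at most one mean spacing -/
lemma fin_shift {δ C C' T L e t t' : ℝ} (hδ : 0 < δ) (hδ1 : δ ≤ 1) (hT : 3 ≤ T) (he : e = δ / 128) (hL : 128 / δ ≤ Real.log L)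
    (hL1 : 4 ≤ L) (hL2 : 2 ≤ L ^ (δ / 4)) (hC : C' + 3 ≤ C) (h0 : t ≤ t') (h1 : t' ≤ t + sp T)
    (hF : Fin0 (δ / 2) C' T L t') (hF2 : Fin0 (δ / 2) C' T (L / 2) t')
    (hnz : ∀ y ∈ Icc (0 : ℝ) 1, |cnt T t' (Icc (-y) 0) - y| ≤ e * Real.log L) : Fin0 δ C T L t := by
  have hs : 0 < sp T := by
    unfold sp
    have := Real.log_pos (by linarith : (1:ℝ) < T)
    positivity
  obtain ⟨l, hl⟩ : ∃ l : ℝ, l = Real.log L := ⟨_, rfl⟩
  have hl1 : 128 ≤ l := by
    rw [hl]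
    refine le_trans ?_ hL
    rw [le_div_iff₀ hδ]
    linarith
  have hlδ : 128 ≤ l * δ := by
    rw [div_le_iff₀ hδ, ← hl] at hL
    exact hL
  have hL0 : 0 < L := by linarith
  obtain ⟨v, hv⟩ : ∃ v : ℝ, v = (t' - t) / sp T := ⟨_, rfl⟩
  have hv' : t' = t + v * sp T := by rw [hv]; field_simp; ring
  have hv0 : 0 ≤ v := by rw [hv]; exact div_nonneg (by linarith) hs.le
  have hv1 : v ≤ 1 := by rw [hv, div_le_one hs]; linarith
  rw [← hl] at hnz
  have hel : 0 ≤ e * l := by rw [he]; positivity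
  -- the zeros just below `t'`
  have hA : ∀ y : ℝ, 0 ≤ y → y ≤ 1 → cnt T t' (Icc (-y) 0) ≤ 1 + e * l := by
    intro y hy0 hy1
    have h2 := abs_le.1 (hnz y ⟨hy0, hy1⟩)
    linarith [h2.2]
  have hA' : ∀ y : ℝ, 0 ≤ y → y ≤ 1 → cnt T t' (Ico (-y) 0) ≤ 1 + e * l := fun y hy0 hy1 =>
    (cnt_mono (α := -y) (β := 0) hs Ico_subset_Icc_self subset_rfl).trans (hA y hy0 hy1)
  -- the split at `0`
  have hsplit : ∀ x y : ℝ, x ≤ v → v ≤ y →
      cnt T t (Icc x y) = cnt T t' (Ico (x - v) 0) + cnt T t' (Icc 0 (y - v)) := by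
    intro x y hx hy
    rw [cnt_shift hs hv', ← Ico_union_Icc_eq_Icc (b := 0) (by linarith) (by linarith)]
    refine cnt_union (α := x - v) (β := y - v) hs ?_ ?_ ?_
    · intro u hu
      exact ⟨hu.1, by linarith [hu.2]⟩
    · intro u hu
      exact ⟨by linarith [hu.1], hu.2⟩
    · rw [Set.disjoint_left]
      intro u hu1 hu2
      linarith [hu1.2, hu2.1]
  refine ⟨?_, ?_, ?_⟩
  · -- the spectrum
    intro θ σ hθ hθ1 hσ
    obtain ⟨θ', hθ'⟩ : ∃ θ' : ℝ, θ' = θ + δ / 16 := ⟨_, rfl⟩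
    have h2 := hF.spec θ' σ (by rw [hθ']; positivity) (by rw [hθ']; linarith) hσ
    set S' : Set ℝ := {x : ℝ | x ∈ Icc 0 L ∧ θ' / Real.pi * Real.log L ≤ σ * (cnt T t' (Icc 0 x) - x)} with hS'
    set S : Set ℝ := {x : ℝ | x ∈ Icc 0 L ∧ θ / Real.pi * Real.log L ≤ σ * (cnt T t (Icc 0 x) - x)} with hS
    have hsub : S' ⊆ (fun x => x + v) ⁻¹' S ∪ Ioc (L - v) L := by
      rintro x ⟨hx, hx2⟩
      rcases le_or_gt x (L - v) with hxv | hxv
      · left
        refine ⟨⟨by linarith [hx.1], by linarith⟩, ?_⟩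
        have h3 := hsplit 0 (x + v) hv0 (by linarith [hx.1])
        rw [h3, zero_sub, show x + v - v = x by ring]
        have h4 := hA' v hv0 hv1
        have h5 := cnt_nonneg T t' (Ico (-v) 0)
        have h6 : |σ * (cnt T t' (Ico (-v) 0) - v)| ≤ 1 + e * l := by
          have h7 : |σ| = 1 := by rcases hσ with h | h <;> rw [h] <;> simp
          rw [abs_mul, h7, one_mul, abs_le]
          exact ⟨by linarith, by linarith⟩
        have h7 := (abs_le.1 h6).1
        have h8 : θ / Real.pi * l ≤ θ' / Real.pi * l - (1 + e * l) := by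
          rw [hθ', he]
          have hpi := Real.pi_pos
          have hpi4 := Real.pi_lt_four
          have h9 : δ / 16 / 4 ≤ δ / 16 / Real.pi := by
            apply div_le_div_of_nonneg_left _ hpi hpi4.le
            positivity
          have h10 : (θ + δ / 16) / Real.pi = θ / Real.pi + δ / 16 / Real.pi := add_div _ _ _
          rw [h10]
          nlinarith
        rw [hl] at h8
        have e1 : σ * (cnt T t' (Ico (-v) 0) + cnt T t' (Icc 0 x) - (x + v)) =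
            σ * (cnt T t' (Icc 0 x) - x) + σ * (cnt T t' (Ico (-v) 0) - v) := by ring
        rw [e1]
        rw [hl] at h7
        linarith
      · right
        exact ⟨hxv, hx.2⟩
    have h3 : volume S' ≤ volume S + ENNReal.ofReal 1 := by
      refine (measure_mono hsub).trans ((measure_union_le _ _).trans ?_)
      refine add_le_add (le_of_eq (measure_preimage_add_right _ _ _)) ?_
      rw [Real.volume_Ioc]
      exact ENNReal.ofReal_le_ofReal (by linarith)
    have h4 : L ^ (1 - θ ^ 2 - δ) + 1 ≤ L ^ (1 - θ' ^ 2 - δ / 2) := by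
      have e1 : 1 - θ ^ 2 - δ + δ / 4 ≤ 1 - θ' ^ 2 - δ / 2 := by
        rw [hθ']
        have : θ * δ ≤ 1 * δ := by gcongr; linarith
        nlinarith
      have e2 : 0 ≤ 1 - θ ^ 2 - δ := by nlinarith
      have e3 : (1 : ℝ) ≤ L ^ (1 - θ ^ 2 - δ) := Real.one_le_rpow (by linarith) e2
      calc L ^ (1 - θ ^ 2 - δ) + 1 ≤ L ^ (1 - θ ^ 2 - δ) * 2 := by linarith
        _ ≤ L ^ (1 - θ ^ 2 - δ) * L ^ (δ / 4) := by gcongr
        _ = L ^ (1 - θ ^ 2 - δ + δ / 4) := by rw [← Real.rpow_add hL0]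
        _ ≤ _ := Real.rpow_le_rpow_of_exponent_le (by linarith) e1
    have h5 : ENNReal.ofReal (L ^ (1 - θ ^ 2 - δ)) + ENNReal.ofReal 1 ≤ volume S + ENNReal.ofReal 1 := by
      rw [← ENNReal.ofReal_add (by positivity) zero_le_one]
      exact ((ENNReal.ofReal_le_ofReal h4).trans h2).trans h3
    exact (ENNReal.add_le_add_iff_right ENNReal.ofReal_ne_top).1 h5
  · -- the windows
    intro σ hσ
    obtain ⟨x, y, hx, hxy, hy, h2⟩ := hF2.win σ hσ
    refine ⟨x + v, y + v, by linarith, by linarith, by linarith, ?_⟩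
    rw [cnt_shift hs hv', show x + v - v = x by ring, show y + v - v = y by ring, show y + v - (x + v) = y - x by ring]
    refine le_trans ?_ h2
    have h3 : Real.log (L / 2) = l - Real.log 2 := by rw [Real.log_div hL0.ne' two_ne_zero, hl]
    rw [h3, ← hl]
    have hpi := Real.pi_pos
    have h4 : 2 / Real.pi ≤ 1 := by
      rw [div_le_one hpi]
      exact Real.two_le_pi
    have h5 : 0 ≤ 2 / Real.pi := by positivity
    have h6 := Real.log_two_lt_d9
    have h7 := Real.log_two_gt_d9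
    nlinarith
  · -- the upper bound
    intro x y hx hxy hy
    rcases le_or_gt v x with h2 | h2
    · rw [cnt_shift hs hv']
      have h3 := hF.up (x - v) (y - v) (by linarith) (by linarith) (by linarith)
      rw [show y - v - (x - v) = y - x by ring] at h3
      refine h3.trans (mul_le_mul_of_nonneg_right (by linarith) (by rw [← hl]; linarith))
    · rcases le_or_gt v y with h3 | h3
      · rw [hsplit x y h2.le h3]
        have h4 := hF.up 0 (y - v) le_rfl (by linarith) (by linarith)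
        rw [sub_zero] at h4
        have h5 := hA' (v - x) (by linarith) (by linarith)
        rw [neg_sub] at h5
        have h6 := cnt_nonneg T t' (Ico (x - v) 0)
        rw [abs_le] at h4 ⊢
        rw [← hl] at h4 ⊢
        have h7 : e * l ≤ l := by rw [he]; nlinarith
        have h8 : (C' + 3) * l ≤ C * l := mul_le_mul_of_nonneg_right hC (by linarith)
        constructor
        · linarith [h4.1]
        · linarith [h4.2]
      · rw [cnt_shift hs hv']
        have h4 : cnt T t' (Icc (x - v) (y - v)) ≤ cnt T t' (Icc (x - v) 0) := by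
          refine cnt_mono (α := x - v) (β := 0) hs ?_ subset_rfl
          exact Icc_subset_Icc_right (by linarith)
        have h5 := hA (v - x) (by linarith) (by linarith)
        rw [neg_sub] at h5
        have h6 := cnt_nonneg T t' (Icc (x - v) (y - v))
        have hC0 : 0 ≤ C' * l := by
          have h9 := hF.up 0 0 le_rfl le_rfl hL0.le
          rw [← hl] at h9
          exact (abs_nonneg _).trans h9
        have h7 : e * l ≤ l := by rw [he]; nlinarith
        have h8 : (C' + 3) * l ≤ C * l := mul_le_mul_of_nonneg_right hC (by linarith)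
        rw [abs_le, ← hl]
        constructor
        · linarith
        · linarith

/-- the statement of FI1 -/
def StFi (δ : ℝ) : Prop := ∃ c C T₀ : ℝ, 0 < c ∧ 1 ≤ C ∧
    ∀ T L : ℝ, T₀ ≤ T → C ≤ L → L ≤ Real.log T ^ (1 - δ) →
      volume {t : ℝ | T ≤ t ∧ t ≤ 2 * T ∧ ¬ Fin0 δ C T L t} ≤ ENNReal.ofReal (C * L ^ (-c) * T)

/-- the statement of NZ -/
def StNz (δ e : ℝ) : Prop := ∃ e₁ c C T₀ : ℝ, 0 < e₁ ∧ e₁ ≤ 1 / 2 ∧ 0 < c ∧ 1 ≤ C ∧
    ∀ T L : ℝ, T₀ ≤ T → C ≤ L → L ≤ Real.log T ^ (1 - δ) →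
    ∃ E : Set ℝ, volume E ≤ ENNReal.ofReal (C * L ^ (-c) * T) ∧ ∀ t ∈ Icc T (2 * T), t ∉ E → ∀ y ∈ Icc 0 (L ^ e₁),
      |cnt T t (Icc 0 y) - y| ≤ e * Real.log L ∧ |cnt T t (Icc (-y) 0) - y| ≤ e * Real.log L

/-- FI2 over FI1 and NZ -/
theorem fi_zeros_of {δ : ℝ} (hδ : 0 < δ) (hδ1 : δ ≤ 1) (hfi : StFi (δ / 2)) (hnz : StNz δ (δ / 128)) :
    ∃ c C T₀ : ℝ, 0 < c ∧ 1 ≤ C ∧ ∀ T L : ℝ, T₀ ≤ T → C ≤ L → L ≤ Real.log T ^ (1 - δ) →
      (zc {t : ℝ | T ≤ t ∧ t ≤ 2 * T ∧ ¬ Fin0 δ C T L t} : ℝ) ≤ C * L ^ (-c) * (T * Real.log T) := by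
  obtain ⟨c1, C1, T1, hc1, hC1, h1⟩ := hfi
  obtain ⟨e₁, c2, C2, T2, he₁, -, hc2, hC2, h2⟩ := hnz
  obtain ⟨Cp, Tp, hCp, hP⟩ := Pool.Agent.Helper57.NS.palm 1
  obtain ⟨c, hcdef⟩ : ∃ c : ℝ, c = min (min c1 c2) 1 := ⟨_, rfl⟩
  have hc : 0 < c := by rw [hcdef]; positivity
  have hcc1 : c ≤ c1 := by rw [hcdef]; exact (min_le_left _ _).trans (min_le_left _ _)
  have hcc2 : c ≤ c2 := by rw [hcdef]; exact (min_le_left _ _).trans (min_le_right _ _)
  have hc1' : c ≤ 1 := by rw [hcdef]; exact min_le_right _ _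
  obtain ⟨D, hD⟩ : ∃ D : ℝ, D = C1 + 2 ^ c1 * C1 + C2 + 1 := ⟨_, rfl⟩
  have h2c : (0 : ℝ) < 2 ^ c1 := by positivity
  have hD0 : 0 < D := by rw [hD]; positivity
  -- the eventual conditions on `L`
  obtain ⟨L1, hL1⟩ := eventually_atTop.mp (Real.tendsto_log_atTop.eventually_ge_atTop (128 / δ))
  obtain ⟨L2, hL2⟩ := eventually_atTop.mp ((tendsto_rpow_atTop (show 0 < δ / 4 by positivity)).eventually_ge_atTop 2)
  obtain ⟨C, hC⟩ : ∃ C : ℝ, C = max (max (C1 + 3) (max (2 * C1) C2)) (max (max L1 L2) (max 4 (Cp * D ^ (1 / 2 : ℝ)))) := ⟨_, rfl⟩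
  have k1 : C1 + 3 ≤ C := by rw [hC]; exact (le_max_left _ _).trans (le_max_left _ _)
  have k2 : 2 * C1 ≤ C := by rw [hC]; exact ((le_max_left _ _).trans (le_max_right _ _)).trans (le_max_left _ _)
  have k3 : C2 ≤ C := by rw [hC]; exact ((le_max_right _ _).trans (le_max_right _ _)).trans (le_max_left _ _)
  have k4 : L1 ≤ C := by rw [hC]; exact ((le_max_left _ _).trans (le_max_left _ _)).trans (le_max_right _ _)
  have k5 : L2 ≤ C := by rw [hC]; exact ((le_max_right _ _).trans (le_max_left _ _)).trans (le_max_right _ _)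
  have k6 : 4 ≤ C := by rw [hC]; exact ((le_max_left _ _).trans (le_max_right _ _)).trans (le_max_right _ _)
  have k7 : Cp * D ^ (1 / 2 : ℝ) ≤ C := by
    rw [hC]; exact ((le_max_right _ _).trans (le_max_right _ _)).trans (le_max_right _ _)
  refine ⟨c / 2, C, max (max T1 T2) (max Tp (Real.exp 8)), by positivity, by linarith, fun T L hT hL hLT => ?_⟩
  have hT1 : T1 ≤ T := ((le_max_left _ _).trans (le_max_left _ _)).trans hT
  have hT2 : T2 ≤ T := ((le_max_right _ _).trans (le_max_left _ _)).trans hT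
  have hTp : Tp ≤ T := ((le_max_left _ _).trans (le_max_right _ _)).trans hT
  have hTe : Real.exp 8 ≤ T := ((le_max_right _ _).trans (le_max_right _ _)).trans hT
  have hT9 : 9 ≤ T := by
    have := Real.add_one_le_exp (8 : ℝ)
    linarith
  have hT0 : 0 < T := by linarith
  have hlog : 8 ≤ Real.log T := by
    rw [Real.le_log_iff_exp_le hT0]
    exact hTe
  have hs : 0 < sp T := by
    unfold sp
    positivity
  have hL4 : 4 ≤ L := k6.trans hL
  have hL0 : 0 < L := by linarith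
  have hLlog : L ≤ Real.log T := hLT.trans (by
    calc Real.log T ^ (1 - δ) ≤ Real.log T ^ (1 : ℝ) := Real.rpow_le_rpow_of_exponent_le (by linarith) (by linarith)
      _ = _ := Real.rpow_one _)
  have hLT' : L ≤ Real.log T ^ (1 - δ / 2) := hLT.trans (Real.rpow_le_rpow_of_exponent_le (by linarith) (by linarith))
  have hLT2 : L / 2 ≤ Real.log T ^ (1 - δ / 2) := by linarith
  have b1 := h1 T L hT1 (by linarith) hLT'
  have b2 := h1 T (L / 2) hT1 (by linarith) hLT2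
  obtain ⟨E, b3, hE⟩ := h2 T L hT2 (by linarith) hLT
  -- the bad set
  obtain ⟨B, hB⟩ : ∃ B : Set ℝ, B = ({t : ℝ | T ≤ t ∧ t ≤ 2 * T ∧ ¬ Fin0 (δ / 2) C1 T L t} ∪
      {t : ℝ | T ≤ t ∧ t ≤ 2 * T ∧ ¬ Fin0 (δ / 2) C1 T (L / 2) t}) ∪ (E ∪ Ioc (2 * T) (2 * T + sp T)) := ⟨_, rfl⟩
  have hexp : ∀ a : ℝ, c ≤ a → L ^ (-a) ≤ L ^ (-c) := fun a ha =>
    Real.rpow_le_rpow_of_exponent_le (by linarith) (by linarith)
  have hLc : 0 < L ^ (-c) := Real.rpow_pos_of_pos hL0 _
  have hvol : volume B ≤ ENNReal.ofReal (D * L ^ (-c) * T) := by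
    have g1 : C1 * L ^ (-c1) * T ≤ C1 * L ^ (-c) * T := by
      have := hexp c1 hcc1
      gcongr
    have g2 : C1 * (L / 2) ^ (-c1) * T ≤ 2 ^ c1 * C1 * L ^ (-c) * T := by
      have e1 : (L / 2) ^ (-c1) = 2 ^ c1 * L ^ (-c1) := by
        rw [Real.div_rpow hL0.le (by norm_num), Real.rpow_neg (by norm_num : (0:ℝ) ≤ 2), div_inv_eq_mul, mul_comm]
      rw [e1]
      have := hexp c1 hcc1
      calc C1 * (2 ^ c1 * L ^ (-c1)) * T = 2 ^ c1 * C1 * L ^ (-c1) * T := by ring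
        _ ≤ _ := by gcongr
    have g3 : C2 * L ^ (-c2) * T ≤ C2 * L ^ (-c) * T := by
      have := hexp c2 hcc2
      gcongr
    have g4 : sp T ≤ 1 * L ^ (-c) * T := by
      have e1 : L ^ (-(1 : ℝ)) ≤ L ^ (-c) := Real.rpow_le_rpow_of_exponent_le (by linarith) (by linarith)
      have e2 : L ^ (-(1 : ℝ)) = 1 / L := by rw [Real.rpow_neg_one, one_div]
      have e3 : sp T ≤ 1 / L * T := by
        unfold sp
        rw [one_div, ← div_eq_inv_mul, div_le_div_iff₀ (by linarith) hL0]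
        have hp := Real.pi_lt_four
        have hp0 := Real.pi_pos
        calc 2 * Real.pi * L ≤ 2 * Real.pi * Real.log T := by gcongr
          _ ≤ T * Real.log T := by
            apply mul_le_mul_of_nonneg_right _ (by linarith)
            linarith
      rw [e2] at e1
      rw [one_mul]
      exact e3.trans (mul_le_mul_of_nonneg_right e1 hT0.le)
    have g5 : D * L ^ (-c) * T = (C1 * L ^ (-c) * T + 2 ^ c1 * C1 * L ^ (-c) * T) + (C2 * L ^ (-c) * T + 1 * L ^ (-c) * T) := by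
      rw [hD]
      ring
    rw [hB, g5, ENNReal.ofReal_add (by positivity) (by positivity), ENNReal.ofReal_add (by positivity) (by positivity),
      ENNReal.ofReal_add (by positivity) (by positivity)]
    refine (measure_union_le _ _).trans (add_le_add ((measure_union_le _ _).trans (add_le_add ?_ ?_))
      ((measure_union_le _ _).trans (add_le_add ?_ ?_)))
    · exact b1.trans (ENNReal.ofReal_le_ofReal g1)
    · exact b2.trans (ENNReal.ofReal_le_ofReal g2)
    · exact b3.trans (ENNReal.ofReal_le_ofReal g3)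
    · rw [Real.volume_Ioc]
      refine ENNReal.ofReal_le_ofReal ?_
      linarith
  have hv0 : 0 ≤ D * L ^ (-c) := by positivity
  have hpalm := hP T hTp B (D * L ^ (-c)) hv0 hvol
  -- the ordinates of the bad points
  have hsub : {t : ℝ | T ≤ t ∧ t ≤ 2 * T ∧ ¬ Fin0 δ C T L t} ⊆ {g : ℝ | T ≤ g ∧ g ≤ 2 * T ∧ Icc g (g + sp T) ⊆ B} := by
    rintro g ⟨hg1, hg2, hg3⟩
    refine ⟨hg1, hg2, fun t' ht' => ?_⟩
    by_contra hcon
    rw [hB] at hcon
    simp only [mem_union, not_or] at hcon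
    obtain ⟨⟨n1, n2⟩, n3, n4⟩ := hcon
    have ht2 : t' ≤ 2 * T := by
      by_contra h
      exact n4 ⟨not_le.1 h, by linarith [ht'.2]⟩
    have ht1 : T ≤ t' := hg1.trans ht'.1
    have f1 : Fin0 (δ / 2) C1 T L t' := by
      by_contra h
      exact n1 ⟨ht1, ht2, h⟩
    have f2 : Fin0 (δ / 2) C1 T (L / 2) t' := by
      by_contra h
      exact n2 ⟨ht1, ht2, h⟩
    refine hg3 (fin_shift hδ hδ1 (by linarith) rfl (hL1 L (k4.trans hL)) hL4 (hL2 L (k5.trans hL)) k1 ht'.1 ht'.2 f1 f2 ?_)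
    intro y hy
    refine (hE t' ⟨ht1, ht2⟩ n3 y ⟨hy.1, hy.2.trans ?_⟩).2
    exact Real.one_le_rpow (by linarith) he₁.le
  have hJ : {g : ℝ | T ≤ g ∧ g ≤ 2 * T ∧ Icc g (g + sp T) ⊆ B} ⊆ Icc T (2 * T) := fun g hg => ⟨hg.1, hg.2.1⟩
  have hz : (zc {t : ℝ | T ≤ t ∧ t ≤ 2 * T ∧ ¬ Fin0 δ C T L t} : ℝ) ≤
      (zc {g : ℝ | T ≤ g ∧ g ≤ 2 * T ∧ Icc g (g + sp T) ⊆ B} : ℝ) := by
    exact_mod_cast Pool.Agent.Helper56.UG.zc_mono hsub hJ
  refine hz.trans (hpalm.trans ?_)
  have hTl : 0 ≤ T * Real.log T := by positivity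
  refine mul_le_mul_of_nonneg_right ?_ hTl
  have e1 : (1 - 1 / ((1 : ℕ) + 1) : ℝ) = 1 / 2 := by norm_num
  rw [e1, Real.mul_rpow hD0.le hLc.le, ← Real.rpow_mul hL0.le, show -c * (1 / 2) = -(c / 2) by ring, ← mul_assoc]
  exact mul_le_mul_of_nonneg_right k7 (Real.rpow_nonneg hL0.le _)

end Pool.Agent.Helper28.OR
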