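import Mathlib

/-!
# The pairs of a rigid finite set of points: the Fejér weighted number of the pairs
-/

set_option autoImplicit false
open MeasureTheory Set

namespace Pool.Agent.Helper28.OR

lemma deriv_pos (k : ℕ) (x : ℝ) : HasDerivAt (fun x : ℝ => max x 0 ^ (k + 2) / (k + 2)) (max x 0 ^ (k + 1)) x := by
  have hk : ((k : ℝ) + 2) ≠ 0 := by positivity
  rcases lt_trichotomy x 0 with h | h | h
  · have h1 : (fun x : ℝ => max x 0 ^ (k + 2) / ((k : ℝ) + 2)) =ᶠ[nhds x] fun _ => 0 := by
      filter_upwards [eventually_lt_nhds h] with y hy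
      rw [max_eq_right hy.le, zero_pow (by omega), zero_div]
    rw [max_eq_right h.le, zero_pow (by omega)]
    exact (hasDerivAt_const x (0:ℝ)).congr_of_eventuallyEq h1
  · subst h
    have h1 : (fun x : ℝ => max x 0 ^ (k + 2) / ((k : ℝ) + 2)) =O[nhds 0] fun x : ℝ => ‖x - 0‖ ^ (k + 2) := by
      apply Asymptotics.IsBigO.of_bound 1
      filter_upwards with y
      rw [sub_zero, one_mul, Real.norm_eq_abs, Real.norm_eq_abs, Real.norm_eq_abs, abs_pow, abs_abs, abs_div, abs_pow,
        abs_of_nonneg (le_max_right y 0), abs_of_pos (by positivity : (0:ℝ) < (k:ℝ) + 2)]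
      have h2 : max y 0 ≤ |y| := max_le (le_abs_self y) (abs_nonneg y)
      have h3 : max y 0 ^ (k + 2) ≤ |y| ^ (k + 2) := pow_le_pow_left₀ (le_max_right y 0) h2 _
      have h4 : 0 ≤ max y 0 ^ (k + 2) := pow_nonneg (le_max_right y 0) _
      refine le_trans ?_ h3
      exact div_le_self h4 (by linarith [(Nat.cast_nonneg k : (0:ℝ) ≤ k)])
    have h2 := h1.hasFDerivAt (𝕜 := ℝ) (by omega)
    have h3 := h2.hasDerivAt
    rw [max_self, zero_pow (by omega)]
    simpa using h3
  · have h1 : (fun x : ℝ => max x 0 ^ (k + 2) / ((k : ℝ) + 2)) =ᶠ[nhds x] fun x => x ^ (k + 2) / ((k : ℝ) + 2) := by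
      filter_upwards [eventually_gt_nhds h] with y hy
      rw [max_eq_left hy.le]
    rw [max_eq_left h.le]
    refine HasDerivAt.congr_of_eventuallyEq ?_ h1
    have h2 := (hasDerivAt_pow (k + 2) x).div_const ((k : ℝ) + 2)
    refine h2.congr_deriv ?_
    push_cast
    field_simp

variable {ι : Type*} {Z : Finset ι} {m h : ι → ℝ} {L E β : ℝ}

/-- the points near the left end -/
lemma edge (hβ : 0 ≤ β) (hβL : β ≤ L) (hh : ∀ i ∈ Z, 0 ≤ h i)
    (hN : ∀ b, 0 ≤ b → b ≤ L → |(∑ i ∈ Z, if h i ≤ b then m i else 0) - b| ≤ E) :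
    |(∑ i ∈ Z, m i * (max (β - h i) 0 ^ 2 / 2)) - β ^ 3 / 6| ≤ E * β ^ 2 / 2 := by
  have hint : ∀ c : ℝ, 0 ≤ c → ∫ u in Icc 0 β, (Ici c).indicator (fun u => β - u) u = max (β - c) 0 ^ 2 / 2 := by
    intro c hc
    rw [setIntegral_indicator measurableSet_Ici]
    have h1 : Icc 0 β ∩ Ici c = Icc c β := by
      ext u
      simp only [mem_inter_iff, mem_Icc, mem_Ici]
      constructor
      · rintro ⟨⟨_, h2⟩, h3⟩
        exact ⟨h3, h2⟩
      · rintro ⟨h2, h3⟩
        exact ⟨⟨hc.trans h2, h3⟩, h2⟩
    rw [h1]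
    rcases le_or_gt c β with h2 | h2
    · rw [integral_Icc_eq_integral_Ioc, ← intervalIntegral.integral_of_le h2, max_eq_left (by linarith)]
      rw [intervalIntegral.integral_sub (by simp) (by simp), intervalIntegral.integral_const, integral_id]
      simp only [smul_eq_mul]
      ring
    · rw [Icc_eq_empty (by linarith), Measure.restrict_empty, integral_zero_measure, max_eq_right (by linarith)]
      simp
  have hii : ∀ c : ℝ, Integrable ((Ici c).indicator fun u => β - u) (volume.restrict (Icc 0 β)) := by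
    intro c
    exact (Continuous.integrableOn_Icc (by fun_prop)).integrable.indicator measurableSet_Ici
  have h1 : (∑ i ∈ Z, m i * (max (β - h i) 0 ^ 2 / 2)) = ∫ u in Icc 0 β, ∑ i ∈ Z, m i * (Ici (h i)).indicator (fun u => β - u) u := by
    rw [integral_finsetSum _ fun i _ => (hii (h i)).const_mul _]
    refine Finset.sum_congr rfl fun i hi => ?_
    rw [integral_const_mul, hint _ (hh i hi)]
  have h2 : ∫ u in Icc 0 β, (β - u) * u = β ^ 3 / 6 := by
    rw [integral_Icc_eq_integral_Ioc, ← intervalIntegral.integral_of_le hβ]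
    have h3 : ∀ u : ℝ, HasDerivAt (fun u : ℝ => β * u ^ 2 / 2 - u ^ 3 / 3) ((β - u) * u) u := by
      intro u
      have e1 := ((hasDerivAt_pow 2 u).const_mul β).div_const 2
      have e2 := (hasDerivAt_pow 3 u).div_const 3
      refine (e1.sub e2).congr_deriv ?_
      push_cast
      ring
    rw [intervalIntegral.integral_eq_sub_of_hasDerivAt (fun u _ => h3 u) (by
      apply Continuous.intervalIntegrable
      fun_prop)]
    ring
  have h3 : ∫ u in Icc 0 β, (β - u) = β ^ 2 / 2 := by
    rw [integral_Icc_eq_integral_Ioc, ← intervalIntegral.integral_of_le hβ]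
    rw [intervalIntegral.integral_sub (by simp) (by simp), intervalIntegral.integral_const, integral_id]
    simp only [smul_eq_mul]
    ring
  have hI1 : Integrable (fun u => ∑ i ∈ Z, m i * (Ici (h i)).indicator (fun u => β - u) u) (volume.restrict (Icc 0 β)) :=
    integrable_finsetSum _ fun i _ => (hii (h i)).const_mul _
  have hI2 : Integrable (fun u : ℝ => (β - u) * u) (volume.restrict (Icc 0 β)) :=
    (Continuous.integrableOn_Icc (by fun_prop)).integrable
  rw [h1, ← h2, ← integral_sub hI1 hI2, ← Real.norm_eq_abs]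
  have h4 : ∫ u in Icc 0 β, E * (β - u) = E * β ^ 2 / 2 := by
    rw [integral_const_mul, h3]
    ring
  rw [← h4]
  apply norm_integral_le_of_norm_le ((Continuous.integrableOn_Icc (by fun_prop)).integrable)
  rw [ae_restrict_iff' measurableSet_Icc]
  refine Filter.Eventually.of_forall fun u hu => ?_
  have h5 : (∑ i ∈ Z, m i * (Ici (h i)).indicator (fun u => β - u) u) = (∑ i ∈ Z, if h i ≤ u then m i else 0) * (β - u) := by
    rw [Finset.sum_mul]
    refine Finset.sum_congr rfl fun i _ => ?_
    by_cases h6 : h i ≤ u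
    · rw [indicator_of_mem (by exact h6), if_pos h6]
    · rw [indicator_of_notMem (by exact h6), if_neg h6]
      ring
  rw [h5, Real.norm_eq_abs]
  have h6 : (∑ i ∈ Z, if h i ≤ u then m i else 0) * (β - u) - (β - u) * u =
      ((∑ i ∈ Z, if h i ≤ u then m i else 0) - u) * (β - u) := by ring
  rw [h6, abs_mul, abs_of_nonneg (by linarith [hu.2] : 0 ≤ β - u)]
  exact mul_le_mul_of_nonneg_right (hN u hu.1 (hu.2.trans hβL)) (by linarith [hu.2])

/-- **The pairs.** -/
theorem pair_lem (hβ : 0 ≤ β) (hβL : β ≤ L) (hh : ∀ i ∈ Z, h i ∈ Icc 0 L)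
    (hN : ∀ a b, 0 ≤ a → a ≤ b → b ≤ L → |(∑ i ∈ Z, if a ≤ h i ∧ h i ≤ b then m i else 0) - (b - a)| ≤ E) :
    |(∑ i ∈ Z, ∑ j ∈ Z, m i * m j * max (β - |h i - h j|) 0) - (β ^ 2 * L - β ^ 3 / 3)| ≤ 4 * E * β ^ 2 + 2 * L * E ^ 2 := by
  have hL : 0 ≤ L := hβ.trans hβL
  have hE : 0 ≤ E := (abs_nonneg _).trans (hN 0 0 le_rfl le_rfl hL)
  obtain ⟨μ, hμ⟩ : ∃ μ : Measure ℝ, μ = volume.restrict (Icc (-β) L) := ⟨_, rfl⟩
  have hfin : IsFiniteMeasure μ := by rw [hμ]; infer_instance
  obtain ⟨n, hn⟩ : ∃ n : ℝ → ℝ, n = fun x => ∑ i ∈ Z, m i * (Icc (h i - β) (h i)).indicator 1 x := ⟨_, rfl⟩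
  obtain ⟨l, hl⟩ : ∃ l : ℝ → ℝ, l = fun x => β - max (x + β - L) 0 - max (-x) 0 := ⟨_, rfl⟩
  have hlc : Continuous l := by rw [hl]; fun_prop
  -- the windows
  have hA : ∀ x ∈ Icc (-β) L, |n x - l x| ≤ E := by
    intro x hx
    have h1 := hN (max x 0) (min (x + β) L) (le_max_right _ _) (max_le (le_min (by linarith) hx.2) (le_min (by linarith [hx.1]) hL))
      (min_le_right _ _)
    have h2 : (∑ i ∈ Z, if max x 0 ≤ h i ∧ h i ≤ min (x + β) L then m i else 0) = n x := by
      rw [hn]
      refine Finset.sum_congr rfl fun i hi => ?_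
      have h3 := hh i hi
      by_cases h4 : h i - β ≤ x ∧ x ≤ h i
      · rw [indicator_of_mem (by exact h4), if_pos ⟨max_le h4.2 h3.1, le_min (by linarith [h4.1]) h3.2⟩]
        simp
      · rw [indicator_of_notMem (by exact h4), if_neg, mul_zero]
        rintro ⟨h5, h6⟩
        apply h4
        have h7 := (le_min_iff.1 h6).1
        exact ⟨by linarith, (max_le_iff.1 h5).1⟩
    have h3 : min (x + β) L - max x 0 = l x := by
      rw [hl]
      simp only
      rcases le_total (x + β) L with h4 | h4 <;> rcases le_total x 0 with h5 | h5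
      · rw [min_eq_left h4, max_eq_right h5, max_eq_right (by linarith : x + β - L ≤ 0), max_eq_left (by linarith : 0 ≤ -x)]; ring
      · rw [min_eq_left h4, max_eq_left h5, max_eq_right (by linarith : x + β - L ≤ 0), max_eq_right (by linarith : -x ≤ 0)]; ring
      · rw [min_eq_right h4, max_eq_right h5, max_eq_left (by linarith : 0 ≤ x + β - L), max_eq_left (by linarith : 0 ≤ -x)]; ring
      · rw [min_eq_right h4, max_eq_left h5, max_eq_left (by linarith : 0 ≤ x + β - L), max_eq_right (by linarith : -x ≤ 0)]; ring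
    rw [h2, h3] at h1
    exact h1
  have hind : ∀ a b : ℝ, Integrable ((Icc a b).indicator (1 : ℝ → ℝ)) μ := fun a b =>
    (integrable_const (1:ℝ)).indicator measurableSet_Icc
  -- the integral of n²
  have hB : ∫ x, n x ^ 2 ∂μ = ∑ i ∈ Z, ∑ j ∈ Z, m i * m j * max (β - |h i - h j|) 0 := by
    have h1 : ∀ x, n x ^ 2 = ∑ i ∈ Z, ∑ j ∈ Z, m i * m j * (Icc (max (h i - β) (h j - β)) (min (h i) (h j))).indicator 1 x := by
      intro x
      rw [hn, pow_two]
      simp only
      rw [Finset.sum_mul_sum]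
      refine Finset.sum_congr rfl fun i _ => Finset.sum_congr rfl fun j _ => ?_
      have h2 : (Icc (max (h i - β) (h j - β)) (min (h i) (h j))).indicator (1 : ℝ → ℝ) x =
          (Icc (h i - β) (h i)).indicator 1 x * (Icc (h j - β) (h j)).indicator 1 x := by
        have h3 : Icc (max (h i - β) (h j - β)) (min (h i) (h j)) = Icc (h i - β) (h i) ∩ Icc (h j - β) (h j) := by
          rw [Icc_inter_Icc]
        rw [h3, inter_indicator_one]
        rfl
      rw [h2]
      ring
    simp only [h1]
    rw [integral_finsetSum _ fun i _ => integrable_finsetSum _ fun j _ => (hind _ _).const_mul _]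
    refine Finset.sum_congr rfl fun i hi => ?_
    rw [integral_finsetSum _ fun j _ => (hind _ _).const_mul _]
    refine Finset.sum_congr rfl fun j hj => ?_
    rw [integral_const_mul, integral_indicator_one measurableSet_Icc]
    congr 1
    have h3 := hh i hi
    have h4 := hh j hj
    rw [hμ, measureReal_restrict_apply measurableSet_Icc]
    have h5 : Icc (max (h i - β) (h j - β)) (min (h i) (h j)) ∩ Icc (-β) L = Icc (max (h i - β) (h j - β)) (min (h i) (h j)) := by
      apply inter_eq_left.2
      apply Icc_subset_Icc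
      · exact le_trans (by linarith [h3.1]) (le_max_left _ _)
      · exact (min_le_left _ _).trans h3.2
    rw [h5, measureReal_def, Real.volume_Icc, ENNReal.toReal_ofReal']
    congr 1
    rcases le_total (h i) (h j) with h6 | h6
    · rw [min_eq_left h6, max_eq_right (by linarith), abs_of_nonpos (by linarith)]; ring
    · rw [min_eq_right h6, max_eq_left (by linarith), abs_of_nonneg (by linarith)]; ring
  -- the integral of l n
  have hIl : ∀ i ∈ Z, ∫ x, (Icc (h i - β) (h i)).indicator 1 x * l x ∂μ =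
      β ^ 2 - max (β - (L - h i)) 0 ^ 2 / 2 - max (β - h i) 0 ^ 2 / 2 := by
    intro i hi
    have h3 := hh i hi
    have h1 : (fun x => (Icc (h i - β) (h i)).indicator (1 : ℝ → ℝ) x * l x) = (Icc (h i - β) (h i)).indicator l := by
      funext x
      by_cases h4 : x ∈ Icc (h i - β) (h i)
      · rw [indicator_of_mem h4, indicator_of_mem h4]; simp
      · rw [indicator_of_notMem h4, indicator_of_notMem h4, zero_mul]
    rw [h1, hμ, setIntegral_indicator measurableSet_Icc]
    have h5 : Icc (-β) L ∩ Icc (h i - β) (h i) = Icc (h i - β) (h i) := by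
      apply inter_eq_right.2
      exact Icc_subset_Icc (by linarith [h3.1]) h3.2
    rw [h5, integral_Icc_eq_integral_Ioc, ← intervalIntegral.integral_of_le (by linarith)]
    have hd : ∀ x : ℝ, HasDerivAt (fun x : ℝ => β * x - max (x + β - L) 0 ^ 2 / 2 + max (-x) 0 ^ 2 / 2) (l x) x := by
      intro x
      have e1 : HasDerivAt (fun x : ℝ => β * x) β x := by simpa using (hasDerivAt_id x).const_mul β
      have e2 : HasDerivAt (fun x : ℝ => max (x + β - L) 0 ^ 2 / 2) (max (x + β - L) 0) x := by
        have k1 := deriv_pos 0 (x + β - L)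
        have k2 : HasDerivAt (fun x : ℝ => x + β - L) 1 x := by
          simpa using ((hasDerivAt_id x).add_const β).sub_const L
        have k3 := HasDerivAt.comp x k1 k2
        simpa [Function.comp_def] using k3
      have e3 : HasDerivAt (fun x : ℝ => max (-x) 0 ^ 2 / 2) (-max (-x) 0) x := by
        have k1 := deriv_pos 0 (-x)
        have k3 := HasDerivAt.comp x k1 (hasDerivAt_neg x)
        simpa [Function.comp_def] using k3
      refine ((e1.sub e2).add e3).congr_deriv ?_
      rw [hl]
      ring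
    rw [intervalIntegral.integral_eq_sub_of_hasDerivAt (fun x _ => hd x) (hlc.intervalIntegrable _ _)]
    rw [max_eq_right (by linarith [h3.1] : -h i ≤ 0), show -(h i - β) = β - h i by ring,
      show h i + β - L = β - (L - h i) by ring, show h i - β + β - L = h i - L by ring, max_eq_right (by linarith [h3.2] : h i - L ≤ 0)]
    ring
  have hli : Integrable l μ := by
    rw [hμ]
    exact hlc.continuousOn.integrableOn_Icc
  have hl2i : Integrable (fun x => l x ^ 2) μ := by
    rw [hμ]
    exact (hlc.pow 2).continuousOn.integrableOn_Icc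
  have hindl : ∀ i, Integrable (fun x => (Icc (h i - β) (h i)).indicator (1 : ℝ → ℝ) x * l x) μ := by
    intro i
    have h1 : (fun x => (Icc (h i - β) (h i)).indicator (1 : ℝ → ℝ) x * l x) = (Icc (h i - β) (h i)).indicator l := by
      funext x
      by_cases h4 : x ∈ Icc (h i - β) (h i)
      · rw [indicator_of_mem h4, indicator_of_mem h4]; simp
      · rw [indicator_of_notMem h4, indicator_of_notMem h4, zero_mul]
    rw [h1]
    exact hli.indicator measurableSet_Icc
  have hC : ∫ x, n x * l x ∂μ = β ^ 2 * (∑ i ∈ Z, m i) - (∑ i ∈ Z, m i * (max (β - (L - h i)) 0 ^ 2 / 2)) -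
      ∑ i ∈ Z, m i * (max (β - h i) 0 ^ 2 / 2) := by
    have h1 : ∀ x, n x * l x = ∑ i ∈ Z, m i * ((Icc (h i - β) (h i)).indicator 1 x * l x) := by
      intro x
      rw [hn]
      simp only
      rw [Finset.sum_mul]
      exact Finset.sum_congr rfl fun i _ => by ring
    simp only [h1]
    rw [integral_finsetSum _ fun i _ => (hindl i).const_mul _]
    rw [Finset.mul_sum, ← Finset.sum_sub_distrib, ← Finset.sum_sub_distrib]
    refine Finset.sum_congr rfl fun i hi => ?_
    rw [integral_const_mul, hIl i hi]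
    ring
  -- the edges
  have hD1 := edge (Z := Z) (m := m) (h := h) hβ hβL (fun i hi => (hh i hi).1) (fun b hb hbL => by
    have h1 := hN 0 b le_rfl hb hbL
    rw [sub_zero] at h1
    have h2 : (∑ i ∈ Z, if h i ≤ b then m i else 0) = ∑ i ∈ Z, if 0 ≤ h i ∧ h i ≤ b then m i else 0 :=
      Finset.sum_congr rfl fun i hi => by
        have h3 := (hh i hi).1
        simp [h3]
    rw [h2]
    exact h1)
  have hD2 := edge (Z := Z) (m := m) (h := fun i => L - h i) hβ hβL (fun i hi => by have := (hh i hi).2; linarith) (fun b hb hbL => by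
    have h1 := hN (L - b) L (by linarith) (by linarith) le_rfl
    rw [show L - (L - b) = b by ring] at h1
    have h2 : (∑ i ∈ Z, if L - h i ≤ b then m i else 0) = ∑ i ∈ Z, if L - b ≤ h i ∧ h i ≤ L then m i else 0 :=
      Finset.sum_congr rfl fun i hi => by
        have h3 := (hh i hi).2
        by_cases h4 : L - h i ≤ b
        · rw [if_pos h4, if_pos ⟨by linarith, h3⟩]
        · rw [if_neg h4, if_neg (fun h5 => h4 (by linarith [h5.1]))]
    rw [h2]
    exact h1)
  have hD0 : |(∑ i ∈ Z, m i) - L| ≤ E := by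
    have h1 := hN 0 L le_rfl hL le_rfl
    rw [sub_zero] at h1
    have h2 : (∑ i ∈ Z, if 0 ≤ h i ∧ h i ≤ L then m i else 0) = ∑ i ∈ Z, m i :=
      Finset.sum_congr rfl fun i hi => if_pos (hh i hi)
    rw [h2] at h1
    exact h1
  -- the integral of l²
  have hF : ∫ x, l x ^ 2 ∂μ = β ^ 2 * L - β ^ 3 / 3 := by
    rw [hμ, integral_Icc_eq_integral_Ioc, ← intervalIntegral.integral_of_le (by linarith)]
    have hd : ∀ x : ℝ, HasDerivAt (fun x : ℝ => β ^ 2 * x - 2 * β * (max (x + β - L) 0 ^ 2 / 2) + 2 * β * (max (-x) 0 ^ 2 / 2) +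
        max (x + β - L) 0 ^ 3 / 3 - max (-x) 0 ^ 3 / 3) (l x ^ 2) x := by
      intro x
      have k2 : HasDerivAt (fun x : ℝ => x + β - L) 1 x := by
        simpa using ((hasDerivAt_id x).add_const β).sub_const L
      have e1 : HasDerivAt (fun x : ℝ => β ^ 2 * x) (β ^ 2) x := by simpa using (hasDerivAt_id x).const_mul (β ^ 2)
      have e2 : HasDerivAt (fun x : ℝ => max (x + β - L) 0 ^ 2 / 2) (max (x + β - L) 0) x := by
        have k3 := HasDerivAt.comp x (deriv_pos 0 (x + β - L)) k2
        simpa [Function.comp_def] using k3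
      have e3 : HasDerivAt (fun x : ℝ => max (-x) 0 ^ 2 / 2) (-max (-x) 0) x := by
        have k3 := HasDerivAt.comp x (deriv_pos 0 (-x)) (hasDerivAt_neg x)
        simpa [Function.comp_def] using k3
      have e4 : HasDerivAt (fun x : ℝ => max (x + β - L) 0 ^ 3 / 3) (max (x + β - L) 0 ^ 2) x := by
        have k3 := HasDerivAt.comp x (deriv_pos 1 (x + β - L)) k2
        norm_num [Function.comp_def] at k3
        exact k3
      have e5 : HasDerivAt (fun x : ℝ => max (-x) 0 ^ 3 / 3) (-(max (-x) 0 ^ 2)) x := by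
        have k3 := HasDerivAt.comp x (deriv_pos 1 (-x)) (hasDerivAt_neg x)
        norm_num [Function.comp_def] at k3
        exact k3
      refine ((((e1.sub (e2.const_mul (2 * β))).add (e3.const_mul (2 * β))).add e4).sub e5).congr_deriv ?_
      rw [hl]
      simp only
      have h0 : max (x + β - L) 0 * max (-x) 0 = 0 := by
        rcases le_total x 0 with h5 | h5
        · rw [max_eq_right (by linarith : x + β - L ≤ 0), zero_mul]
        · rw [max_eq_right (by linarith : -x ≤ 0), mul_zero]
      linear_combination (-2) * h0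
    rw [intervalIntegral.integral_eq_sub_of_hasDerivAt (fun x _ => hd x) ((hlc.pow 2).intervalIntegrable _ _)]
    rw [max_eq_right (by linarith : -L ≤ 0), show L + β - L = β by ring, max_eq_left hβ, show -β + β - L = -L by ring,
      max_eq_right (by linarith : -L ≤ 0), show -(-β) = β by ring, max_eq_left hβ]
    ring
  -- the square of the difference
  have hni : Integrable n μ := by
    rw [hn]
    exact integrable_finsetSum _ fun i _ => (hind _ _).const_mul _
  have hnli : Integrable (fun x => n x * l x) μ := by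
    have h1 : ∀ x, n x * l x = ∑ i ∈ Z, m i * ((Icc (h i - β) (h i)).indicator 1 x * l x) := by
      intro x
      rw [hn]
      simp only
      rw [Finset.sum_mul]
      exact Finset.sum_congr rfl fun i _ => by ring
    simp only [h1]
    exact integrable_finsetSum _ fun i _ => (hindl i).const_mul _
  have hae : ∀ᵐ x ∂μ, |n x - l x| ≤ E := by
    rw [hμ, ae_restrict_iff' measurableSet_Icc]
    exact Filter.Eventually.of_forall hA
  have hdi : Integrable (fun x => (n x - l x) ^ 2) μ := by
    refine Integrable.mono' (integrable_const (E ^ 2)) ((hni.sub hli).aestronglyMeasurable.pow 2) ?_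
    filter_upwards [hae] with x hx
    rw [Real.norm_eq_abs, abs_of_nonneg (sq_nonneg _), ← sq_abs]
    exact pow_le_pow_left₀ (abs_nonneg _) hx 2
  have hG : ∫ x, n x ^ 2 ∂μ = 2 * (∫ x, n x * l x ∂μ) - (∫ x, l x ^ 2 ∂μ) + ∫ x, (n x - l x) ^ 2 ∂μ := by
    have e1 : Integrable (fun x => 2 * (n x * l x) - l x ^ 2) μ := (hnli.const_mul 2).sub hl2i
    rw [← integral_const_mul, ← integral_sub (hnli.const_mul 2) hl2i, ← integral_add e1 hdi]
    refine integral_congr_ae (Filter.Eventually.of_forall fun x => ?_)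
    simp only
    ring
  have hH0 : 0 ≤ ∫ x, (n x - l x) ^ 2 ∂μ := integral_nonneg fun x => sq_nonneg _
  have hH1 : ∫ x, (n x - l x) ^ 2 ∂μ ≤ 2 * L * E ^ 2 := by
    have h1 : ∫ x, (n x - l x) ^ 2 ∂μ ≤ ∫ _x, E ^ 2 ∂μ := by
      apply integral_mono_ae hdi (integrable_const _)
      filter_upwards [hae] with x hx
      rw [← sq_abs]
      exact pow_le_pow_left₀ (abs_nonneg _) hx 2
    refine h1.trans ?_
    rw [integral_const, hμ, measureReal_restrict_apply_univ, measureReal_def, Real.volume_Icc, ENNReal.toReal_ofReal (by linarith),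
      smul_eq_mul]
    apply mul_le_mul_of_nonneg_right _ (sq_nonneg _)
    linarith
  rw [← hB, hG, hF, hC]
  rw [abs_le] at hD0 hD1 hD2
  have hβ2 : 0 ≤ β ^ 2 := sq_nonneg _
  have k1 : β ^ 2 * (∑ i ∈ Z, m i) ≤ β ^ 2 * (L + E) := mul_le_mul_of_nonneg_left (by linarith [hD0.2]) hβ2
  have k2 : β ^ 2 * (L - E) ≤ β ^ 2 * (∑ i ∈ Z, m i) := mul_le_mul_of_nonneg_left (by linarith [hD0.1]) hβ2
  rw [abs_le]
  constructor
  · linarith [hD1.2, hD2.2]
  · linarith [hD1.1, hD2.1]

end Pool.Agent.Helper28.OR
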