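import Pool.Agent.Helper28.OR.PairLem
import Pool.Agent.Helper93.OR.Fin0
import Pool.Agent.Helper56.UG.Cv

/-!
# OR: the pairs of zeros in a stretch in which all windows are rigid
-/

set_option autoImplicit false
open MeasureTheory Set Filter Topology
open Pool.Agent.Helper57.PC (IsNontrivialZero mult)
open Pool.Agent.Helper93.UG (zc sp)
open Pool.Agent.Helper57.NS (cnt)
open Pool.Agent.Helper93.OR

namespace Pool.Agent.Helper28.OR

/-- The number of the ordered pairs of zeros, with multiplicity (a zero with itself included), with heights in `[0, L]` above `t` and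
the difference of the heights at most `u`. -/
noncomputable def pairN (T t L u : ℝ) : ℕ :=
  ∑ᶠ p ∈ {p : ℂ × ℂ | (IsNontrivialZero p.1 ∧ (p.1.im - t) / sp T ∈ Icc 0 L) ∧
    (IsNontrivialZero p.2 ∧ (p.2.im - t) / sp T ∈ Icc 0 L) ∧ |(p.1.im - t) / sp T - (p.2.im - t) / sp T| ≤ u}, mult p.1 * mult p.2

lemma ind_int {c β : ℝ} (hc : 0 ≤ c) (hβ : 0 ≤ β) : ∫ u in (0:ℝ)..β, (if c ≤ u then (1:ℝ) else 0) = max (β - c) 0 := by
  rw [intervalIntegral.integral_of_le hβ, ← integral_Icc_eq_integral_Ioc]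
  have h1 : (fun u : ℝ => if c ≤ u then (1:ℝ) else 0) = (Ici c).indicator 1 := by
    funext u
    by_cases h : c ≤ u
    · rw [if_pos h, indicator_of_mem (by exact h)]; rfl
    · rw [if_neg h, indicator_of_notMem (by exact h)]
  rw [h1, integral_indicator_one measurableSet_Ici, measureReal_restrict_apply measurableSet_Ici]
  have h2 : Ici c ∩ Icc 0 β = Icc c β := by
    ext u
    simp only [mem_inter_iff, mem_Icc, mem_Ici]
    constructor
    · rintro ⟨h3, ⟨_, h4⟩⟩
      exact ⟨h3, h4⟩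
    · rintro ⟨h3, h4⟩
      exact ⟨h3, ⟨hc.trans h3, h4⟩⟩
  rw [h2, measureReal_def, Real.volume_Icc, ENNReal.toReal_ofReal']

/-- **The pairs in a rigid stretch.** -/
theorem pairs_of {T t L E β : ℝ} (hT : 1 < T) (h : ∀ x y : ℝ, 0 ≤ x → x ≤ y → y ≤ L → |cnt T t (Icc x y) - (y - x)| ≤ E)
    (hβ : 0 ≤ β) (hβL : β ≤ L) :
    |(∫ u in (0:ℝ)..β, (pairN T t L u : ℝ)) - (β ^ 2 * L - β ^ 3 / 3)| ≤ 4 * E * β ^ 2 + 2 * L * E ^ 2 := by
  have hL : 0 ≤ L := hβ.trans hβL
  have hs : 0 < sp T := by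
    unfold sp
    have := Real.log_pos hT
    positivity
  have hfin : {ρ : ℂ | IsNontrivialZero ρ ∧ (ρ.im - t) / sp T ∈ Icc 0 L}.Finite := by
    have h1 := Pool.Agent.Helper56.UG.fin_of (I := Icc t (t + L * sp T)) (a := t) (b := t + L * sp T) subset_rfl
    refine h1.subset ?_
    rintro ρ ⟨h2, h3⟩
    refine ⟨h2, ?_⟩
    rw [mem_Icc, le_div_iff₀ hs, div_le_iff₀ hs] at h3
    exact ⟨by linarith [h3.1], by linarith [h3.2]⟩
  obtain ⟨Z, hZ⟩ : ∃ Z, Z = hfin.toFinset := ⟨_, rfl⟩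
  have hmem : ∀ ρ, ρ ∈ Z ↔ IsNontrivialZero ρ ∧ (ρ.im - t) / sp T ∈ Icc 0 L := by
    intro ρ
    rw [hZ, Set.Finite.mem_toFinset]
    rfl
  have hcnt : ∀ a b : ℝ, 0 ≤ a → b ≤ L → cnt T t (Icc a b) =
      ∑ i ∈ Z, if a ≤ (i.im - t) / sp T ∧ (i.im - t) / sp T ≤ b then (mult i : ℝ) else 0 := by
    intro a b ha hb
    unfold cnt zc
    have h1 : {ρ : ℂ | IsNontrivialZero ρ ∧ ρ.im ∈ {u : ℝ | (u - t) / sp T ∈ Icc a b}} =
        ↑(Z.filter fun i : ℂ => a ≤ (i.im - t) / sp T ∧ (i.im - t) / sp T ≤ b) := by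
      ext ρ
      simp only [Finset.coe_filter, Set.mem_ofPred_eq, hmem]
      constructor
      · rintro ⟨h2, h3⟩
        exact ⟨⟨h2, ⟨ha.trans h3.1, h3.2.trans hb⟩⟩, h3⟩
      · rintro ⟨⟨h2, _⟩, h3⟩
        exact ⟨h2, h3⟩
    rw [h1, finsum_mem_coe_finset, Finset.sum_filter]
    push_cast
    rfl
  have hpair : ∀ u : ℝ, (pairN T t L u : ℝ) = ∑ i ∈ Z, ∑ j ∈ Z, (mult i : ℝ) * mult j *
      (if |(i.im - t) / sp T - (j.im - t) / sp T| ≤ u then (1:ℝ) else 0) := by
    intro u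
    unfold pairN
    have h1 : {p : ℂ × ℂ | (IsNontrivialZero p.1 ∧ (p.1.im - t) / sp T ∈ Icc 0 L) ∧
        (IsNontrivialZero p.2 ∧ (p.2.im - t) / sp T ∈ Icc 0 L) ∧ |(p.1.im - t) / sp T - (p.2.im - t) / sp T| ≤ u} =
        ↑((Z ×ˢ Z).filter fun p : ℂ × ℂ => |(p.1.im - t) / sp T - (p.2.im - t) / sp T| ≤ u) := by
      ext p
      simp only [Finset.coe_filter, Set.mem_ofPred_eq, Finset.mem_product, hmem]
      tauto
    rw [h1, finsum_mem_coe_finset, Finset.sum_filter, Finset.sum_product]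
    push_cast
    refine Finset.sum_congr rfl fun i _ => Finset.sum_congr rfl fun j _ => ?_
    split_ifs <;> simp
  have hii : ∀ c : ℝ, 0 ≤ c → IntervalIntegrable (fun u : ℝ => if c ≤ u then (1:ℝ) else 0) volume 0 β := by
    intro c _
    rw [intervalIntegrable_iff_integrableOn_Icc_of_le hβ]
    have h1 : (fun u : ℝ => if c ≤ u then (1:ℝ) else 0) = (Ici c).indicator fun _ => 1 := by
      funext u
      by_cases h : c ≤ u
      · rw [if_pos h, indicator_of_mem (by exact h)]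
      · rw [if_neg h, indicator_of_notMem (by exact h)]
    rw [h1]
    exact (integrable_const (1:ℝ)).indicator measurableSet_Ici
  have hint : ∫ u in (0:ℝ)..β, (pairN T t L u : ℝ) = ∑ i ∈ Z, ∑ j ∈ Z, (mult i : ℝ) * mult j *
      max (β - |(i.im - t) / sp T - (j.im - t) / sp T|) 0 := by
    simp only [hpair]
    rw [intervalIntegral.integral_finsetSum]
    · refine Finset.sum_congr rfl fun i _ => ?_
      rw [intervalIntegral.integral_finsetSum]
      · refine Finset.sum_congr rfl fun j _ => ?_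
        rw [intervalIntegral.integral_const_mul, ind_int (abs_nonneg _) hβ]
      · intro j _
        exact (hii _ (abs_nonneg _)).const_mul _
    · intro i _
      have : (fun u : ℝ => ∑ j ∈ Z, (mult i : ℝ) * mult j *
          (if |(i.im - t) / sp T - (j.im - t) / sp T| ≤ u then (1:ℝ) else 0)) = ∑ j ∈ Z, fun u : ℝ => (mult i : ℝ) * mult j *
          (if |(i.im - t) / sp T - (j.im - t) / sp T| ≤ u then (1:ℝ) else 0) := by
        funext u
        rw [Finset.sum_apply]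
      rw [this]
      exact IntervalIntegrable.sum _ fun j _ => (hii _ (abs_nonneg _)).const_mul _
  rw [hint]
  apply pair_lem (Z := Z) (m := fun i : ℂ => (mult i : ℝ)) (h := fun i : ℂ => (i.im - t) / sp T) hβ hβL
    (fun i hi => ((hmem i).1 hi).2)
  intro a b ha hab hb
  rw [← hcnt a b ha hb]
  exact h a b ha hab hb

end Pool.Agent.Helper28.OR
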