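import Pool.Agent.Helper28.OR.Pairs

/-!
# OR: the pairs of zeros at a distance in `[a, b]`, in a stretch in which all windows are rigid
-/

set_option autoImplicit false
open MeasureTheory Set Filter Topology
open Pool.Agent.Helper57.PC (IsNontrivialZero mult)
open Pool.Agent.Helper93.UG (zc sp)
open Pool.Agent.Helper57.NS (cnt)
open Pool.Agent.Helper93.OR

namespace Pool.Agent.Helper28.OR

section
variable {ι : Type*} {Z : Finset ι} {m h : ι → ℝ} {L E : ℝ}

lemma edge1 {c : ℝ} (hc : 0 ≤ c) (hcL : c ≤ L) (hh : ∀ i ∈ Z, 0 ≤ h i)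
    (hN : ∀ b, 0 ≤ b → b ≤ L → |(∑ i ∈ Z, if h i ≤ b then m i else 0) - b| ≤ E) :
    |(∑ i ∈ Z, m i * max (c - h i) 0) - c ^ 2 / 2| ≤ E * c := by
  have hii : ∀ x : ℝ, IntervalIntegrable (fun u : ℝ => if x ≤ u then (1:ℝ) else 0) volume 0 c := by
    intro x
    rw [intervalIntegrable_iff_integrableOn_Icc_of_le hc]
    have h1 : (fun u : ℝ => if x ≤ u then (1:ℝ) else 0) = (Ici x).indicator fun _ => 1 := by
      funext u
      by_cases h : x ≤ u
      · rw [if_pos h, indicator_of_mem (by exact h)]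
      · rw [if_neg h, indicator_of_notMem (by exact h)]
    rw [h1]
    exact (integrable_const (1:ℝ)).indicator measurableSet_Ici
  have h1 : (∑ i ∈ Z, m i * max (c - h i) 0) = ∫ u in (0:ℝ)..c, ∑ i ∈ Z, m i * (if h i ≤ u then (1:ℝ) else 0) := by
    rw [intervalIntegral.integral_finsetSum fun i _ => (hii (h i)).const_mul _]
    refine Finset.sum_congr rfl fun i hi => ?_
    rw [intervalIntegral.integral_const_mul, ind_int (hh i hi) hc]
  have h2 : (∫ u in (0:ℝ)..c, u) = c ^ 2 / 2 := by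
    rw [integral_id]
    ring
  have hI : IntervalIntegrable (fun u : ℝ => ∑ i ∈ Z, m i * (if h i ≤ u then (1:ℝ) else 0)) volume 0 c := by
    have : (fun u : ℝ => ∑ i ∈ Z, m i * (if h i ≤ u then (1:ℝ) else 0)) = ∑ i ∈ Z, fun u : ℝ => m i * (if h i ≤ u then (1:ℝ) else 0) := by
      funext u
      rw [Finset.sum_apply]
    rw [this]
    exact IntervalIntegrable.sum _ fun i _ => (hii _).const_mul _
  rw [h1, ← h2, ← intervalIntegral.integral_sub hI (by simp), ← Real.norm_eq_abs]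
  have h3 := intervalIntegral.norm_integral_le_of_norm_le_const (a := 0) (b := c)
    (f := fun u => (∑ i ∈ Z, m i * (if h i ≤ u then (1:ℝ) else 0)) - u) (C := E) (fun u hu => by
      rw [uIoc_of_le hc] at hu
      have h4 := hN u hu.1.le (hu.2.trans hcL)
      rw [Real.norm_eq_abs]
      have h5 : (∑ i ∈ Z, m i * (if h i ≤ u then (1:ℝ) else 0)) = ∑ i ∈ Z, if h i ≤ u then m i else 0 :=
        Finset.sum_congr rfl fun i _ => by split_ifs <;> simp
      rw [h5]
      exact h4)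
  rw [sub_zero, abs_of_nonneg hc] at h3
  exact h3

/-- **The pairs with the difference in a window.** -/
theorem pair_win {a b : ℝ} (ha : 0 ≤ a) (hab : a ≤ b) (hb : b ≤ L) (hm : ∀ i ∈ Z, 0 ≤ m i) (hh : ∀ i ∈ Z, h i ∈ Icc 0 L)
    (hN : ∀ a b, 0 ≤ a → a ≤ b → b ≤ L → |(∑ i ∈ Z, if a ≤ h i ∧ h i ≤ b then m i else 0) - (b - a)| ≤ E) :
    |(∑ i ∈ Z, ∑ j ∈ Z, m i * m j * (if a ≤ h j - h i ∧ h j - h i ≤ b then (1:ℝ) else 0)) - (b - a) * (L - (a + b) / 2)| ≤
      3 * E * L + E ^ 2 := by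
  have hL : 0 ≤ L := ha.trans (hab.trans hb)
  have hE : 0 ≤ E := (abs_nonneg _).trans (hN 0 0 le_rfl le_rfl hL)
  have hN' : ∀ b, 0 ≤ b → b ≤ L → |(∑ i ∈ Z, if h i ≤ b then m i else 0) - b| ≤ E := by
    intro b hb hbL
    have h1 := hN 0 b le_rfl hb hbL
    rw [sub_zero] at h1
    have h2 : (∑ i ∈ Z, if h i ≤ b then m i else 0) = ∑ i ∈ Z, if 0 ≤ h i ∧ h i ≤ b then m i else 0 :=
      Finset.sum_congr rfl fun i hi => by
        have h3 := (hh i hi).1
        simp [h3]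
    rw [h2]
    exact h1
  have hD0 : |(∑ i ∈ Z, m i) - L| ≤ E := by
    have h1 := hN 0 L le_rfl hL le_rfl
    rw [sub_zero] at h1
    have h2 : (∑ i ∈ Z, if 0 ≤ h i ∧ h i ≤ L then m i else 0) = ∑ i ∈ Z, m i :=
      Finset.sum_congr rfl fun i hi => if_pos (hh i hi)
    rw [h2] at h1
    exact h1
  have e1 := edge1 (Z := Z) (m := m) (h := h) (c := L - a) (by linarith) (by linarith) (fun i hi => (hh i hi).1) hN'
  have e2 := edge1 (Z := Z) (m := m) (h := h) (c := L - b) (by linarith) (by linarith) (fun i hi => (hh i hi).1) hN'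
  have hone : ∀ i ∈ Z, |(∑ j ∈ Z, m j * (if a ≤ h j - h i ∧ h j - h i ≤ b then (1:ℝ) else 0)) -
      (max (L - a - h i) 0 - max (L - b - h i) 0)| ≤ E := by
    intro i hi
    have h3 := hh i hi
    rcases le_or_gt (h i + a) L with h4 | h4
    · have h5 := hN (h i + a) (min (h i + b) L) (by linarith [h3.1]) (le_min (by linarith) h4) (min_le_right _ _)
      have h6 : (∑ j ∈ Z, m j * (if a ≤ h j - h i ∧ h j - h i ≤ b then (1:ℝ) else 0)) =
          ∑ j ∈ Z, if h i + a ≤ h j ∧ h j ≤ min (h i + b) L then m j else 0 := by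
        refine Finset.sum_congr rfl fun j hj => ?_
        have h7 := (hh j hj).2
        by_cases h8 : a ≤ h j - h i ∧ h j - h i ≤ b
        · rw [if_pos h8, if_pos ⟨by linarith [h8.1], le_min (by linarith [h8.2]) h7⟩, mul_one]
        · rw [if_neg h8, if_neg, mul_zero]
          rintro ⟨h9, h10⟩
          have := (le_min_iff.1 h10).1
          exact h8 ⟨by linarith, by linarith⟩
      rw [h6]
      have h9 : max (L - a - h i) 0 - max (L - b - h i) 0 = min (h i + b) L - (h i + a) := by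
        rw [max_eq_left (by linarith : 0 ≤ L - a - h i)]
        rcases le_total (h i + b) L with h10 | h10
        · rw [min_eq_left h10, max_eq_left (by linarith : 0 ≤ L - b - h i)]; ring
        · rw [min_eq_right h10, max_eq_right (by linarith : L - b - h i ≤ 0)]; ring
      rw [h9]
      exact h5
    · have h6 : (∑ j ∈ Z, m j * (if a ≤ h j - h i ∧ h j - h i ≤ b then (1:ℝ) else 0)) = 0 := by
        refine Finset.sum_eq_zero fun j hj => ?_
        have h7 := (hh j hj).2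
        rw [if_neg, mul_zero]
        rintro ⟨h8, _⟩
        linarith
      rw [h6, max_eq_right (by linarith), max_eq_right (by linarith)]
      simpa using hE
  have hsum : (∑ i ∈ Z, ∑ j ∈ Z, m i * m j * (if a ≤ h j - h i ∧ h j - h i ≤ b then (1:ℝ) else 0)) =
      ∑ i ∈ Z, m i * ((∑ j ∈ Z, m j * (if a ≤ h j - h i ∧ h j - h i ≤ b then (1:ℝ) else 0)) -
        (max (L - a - h i) 0 - max (L - b - h i) 0)) + ((∑ i ∈ Z, m i * max (L - a - h i) 0) - ∑ i ∈ Z, m i * max (L - b - h i) 0) := by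
    rw [← Finset.sum_sub_distrib, ← Finset.sum_add_distrib]
    refine Finset.sum_congr rfl fun i _ => ?_
    have : (∑ j ∈ Z, m i * m j * (if a ≤ h j - h i ∧ h j - h i ≤ b then (1:ℝ) else 0)) =
        m i * ∑ j ∈ Z, m j * (if a ≤ h j - h i ∧ h j - h i ≤ b then (1:ℝ) else 0) := by
      rw [Finset.mul_sum]
      exact Finset.sum_congr rfl fun j _ => by ring
    rw [this]
    ring
  have hA : |∑ i ∈ Z, m i * ((∑ j ∈ Z, m j * (if a ≤ h j - h i ∧ h j - h i ≤ b then (1:ℝ) else 0)) -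
        (max (L - a - h i) 0 - max (L - b - h i) 0))| ≤ (L + E) * E := by
    refine (Finset.abs_sum_le_sum_abs _ _).trans ?_
    have h1 : ∀ i ∈ Z, |m i * ((∑ j ∈ Z, m j * (if a ≤ h j - h i ∧ h j - h i ≤ b then (1:ℝ) else 0)) -
        (max (L - a - h i) 0 - max (L - b - h i) 0))| ≤ m i * E := by
      intro i hi
      rw [abs_mul, abs_of_nonneg (hm i hi)]
      exact mul_le_mul_of_nonneg_left (hone i hi) (hm i hi)
    refine (Finset.sum_le_sum h1).trans ?_
    rw [← Finset.sum_mul]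
    rw [abs_le] at hD0
    exact mul_le_mul_of_nonneg_right (by linarith [hD0.2]) hE
  rw [hsum]
  rw [abs_le] at hA e1 e2
  have k1 : E * (L - a) ≤ E * L := mul_le_mul_of_nonneg_left (by linarith) hE
  have k2 : E * (L - b) ≤ E * L := mul_le_mul_of_nonneg_left (by linarith) hE
  have k3 : (L - a) ^ 2 / 2 - (L - b) ^ 2 / 2 = (b - a) * (L - (a + b) / 2) := by ring
  rw [abs_le]
  constructor
  · nlinarith [hA.1, e1.1, e2.2]
  · nlinarith [hA.2, e1.2, e2.1]

end

/-- The number of the ordered pairs of zeros, with multiplicity, with heights in `[0, L]` above `t` and the difference in `[a, b]`. -/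
noncomputable def pairW (T t L a b : ℝ) : ℕ :=
  ∑ᶠ p ∈ {p : ℂ × ℂ | (IsNontrivialZero p.1 ∧ (p.1.im - t) / sp T ∈ Icc 0 L) ∧
    (IsNontrivialZero p.2 ∧ (p.2.im - t) / sp T ∈ Icc 0 L) ∧ (p.2.im - t) / sp T - (p.1.im - t) / sp T ∈ Icc a b}, mult p.1 * mult p.2

/-- **The pairs in a rigid stretch, windows.** -/
theorem pairs_win {T t L E a b : ℝ} (hT : 1 < T) (h : ∀ x y : ℝ, 0 ≤ x → x ≤ y → y ≤ L → |cnt T t (Icc x y) - (y - x)| ≤ E)
    (ha : 0 ≤ a) (hab : a ≤ b) (hb : b ≤ L) :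
    |(pairW T t L a b : ℝ) - (b - a) * (L - (a + b) / 2)| ≤ 3 * E * L + E ^ 2 := by
  have hL : 0 ≤ L := ha.trans (hab.trans hb)
  have hs : 0 < sp T := by
    unfold sp
    have := Real.log_pos hT
    positivity
  have hfin : {ρ : ℂ | IsNontrivialZero ρ ∧ (ρ.im - t) / sp T ∈ Icc 0 L}.Finite := by
    have h1 := Pool.Agent.Helper56.UG.fin_of (I := Icc t (t + L * sp T)) (a := t) (b := t + L * sp T) subset_rfl
    refine h1.subset ?_
    rintro ρ ⟨h2, h3⟩
    refine ⟨h2, ?_⟩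
    rw [mem_Icc, le_div_iff₀ hs, div_le_iff₀ hs] at h3
    exact ⟨by linarith [h3.1], by linarith [h3.2]⟩
  obtain ⟨Z, hZ⟩ : ∃ Z, Z = hfin.toFinset := ⟨_, rfl⟩
  have hmem : ∀ ρ, ρ ∈ Z ↔ IsNontrivialZero ρ ∧ (ρ.im - t) / sp T ∈ Icc 0 L := by
    intro ρ
    rw [hZ, Set.Finite.mem_toFinset]
    rfl
  have hcnt : ∀ a b : ℝ, 0 ≤ a → b ≤ L → cnt T t (Icc a b) =
      ∑ i ∈ Z, if a ≤ (i.im - t) / sp T ∧ (i.im - t) / sp T ≤ b then (mult i : ℝ) else 0 := by
    intro a b ha hb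
    unfold cnt zc
    have h1 : {ρ : ℂ | IsNontrivialZero ρ ∧ ρ.im ∈ {u : ℝ | (u - t) / sp T ∈ Icc a b}} =
        ↑(Z.filter fun i : ℂ => a ≤ (i.im - t) / sp T ∧ (i.im - t) / sp T ≤ b) := by
      ext ρ
      simp only [Finset.coe_filter, Set.mem_ofPred_eq, hmem]
      constructor
      · rintro ⟨h2, h3⟩
        exact ⟨⟨h2, ⟨ha.trans h3.1, h3.2.trans hb⟩⟩, h3⟩
      · rintro ⟨⟨h2, _⟩, h3⟩
        exact ⟨h2, h3⟩
    rw [h1, finsum_mem_coe_finset, Finset.sum_filter]
    push_cast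
    rfl
  have hpair : (pairW T t L a b : ℝ) = ∑ i ∈ Z, ∑ j ∈ Z, (mult i : ℝ) * mult j *
      (if a ≤ (j.im - t) / sp T - (i.im - t) / sp T ∧ (j.im - t) / sp T - (i.im - t) / sp T ≤ b then (1:ℝ) else 0) := by
    unfold pairW
    have h1 : {p : ℂ × ℂ | (IsNontrivialZero p.1 ∧ (p.1.im - t) / sp T ∈ Icc 0 L) ∧
        (IsNontrivialZero p.2 ∧ (p.2.im - t) / sp T ∈ Icc 0 L) ∧ (p.2.im - t) / sp T - (p.1.im - t) / sp T ∈ Icc a b} =
        ↑((Z ×ˢ Z).filter fun p : ℂ × ℂ => a ≤ (p.2.im - t) / sp T - (p.1.im - t) / sp T ∧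
          (p.2.im - t) / sp T - (p.1.im - t) / sp T ≤ b) := by
      ext p
      simp only [Finset.coe_filter, Set.mem_ofPred_eq, Finset.mem_product, hmem, mem_Icc]
      tauto
    rw [h1, finsum_mem_coe_finset, Finset.sum_filter, Finset.sum_product]
    push_cast
    refine Finset.sum_congr rfl fun i _ => Finset.sum_congr rfl fun j _ => ?_
    split_ifs <;> simp
  rw [hpair]
  apply pair_win (Z := Z) (m := fun i : ℂ => (mult i : ℝ)) (h := fun i : ℂ => (i.im - t) / sp T) ha hab hb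
    (fun i _ => Nat.cast_nonneg _) (fun i hi => ((hmem i).1 hi).2)
  intro a b ha hab hb
  rw [← hcnt a b ha hb]
  exact h a b ha hab hb

end Pool.Agent.Helper28.OR
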